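import Pool.Agent.Lib.MP_399f8e_an.Dc.Seg

open Set Filter Topology Metric
open scoped RealInnerProductSpace
open Pool.Agent.Lib.MP_399f8e_an.Rg Pool.Agent.Lib.MP_399f8e_an.Rg.CrossAux

noncomputable section

namespace Pool.Agent.Lib.MP_399f8e_an.Dc

namespace DiniAux

open Asymptotics

variable {φ : ℝ → S → S} {X : S → E} {m M L : ℝ}

theorem cont_X (hφ : FD φ X m M L) : Continuous X := by
  have h : LipschitzWith ⟨L, hφ.L_nonneg⟩ X := LipschitzWith.of_dist_le_mul fun x y => by
    rw [dist_eq_norm, Subtype.dist_eq, dist_eq_norm]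
    exact hφ.lip x y
  exact h.continuous

theorem cont_orbit (hφ : FD φ X m M L) (z : S) : Continuous fun t : ℝ => φ t z :=
  hφ.cont.comp (continuous_id.prodMk continuous_const)

theorem est (hφ : FD φ X m M L) (z : S) {κ : ℝ} (hκ : 0 < κ) :
    ∀ᶠ t in 𝓝 (0 : ℝ), ‖(φ t z : E) - z - t • X z‖ ≤ κ * |t| := by
  obtain ⟨δ, hδ, H⟩ := hφ.unif κ hκ
  filter_upwards [closedBall_mem_nhds (0 : ℝ) hδ] with t ht
  have ht' : |t| ≤ δ := by simpa using ht
  have h := H z z z t 0 (by simpa using hδ.le) (by simpa using hδ.le) ht' (by simpa using hδ.le)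
  simpa [hext_coe, hφ.zero] using h

theorem deriv_zero (hφ : FD φ X m M L) (z : S) :
    HasDerivAt (fun t : ℝ => (φ t z : E)) (X z) 0 := by
  rw [hasDerivAt_iff_isLittleO, isLittleO_iff]
  intro κ hκ
  filter_upwards [est hφ z hκ] with t ht
  simpa [hφ.zero] using ht

theorem orb_deriv (hφ : FD φ X m M L) {f : S → ℝ} (hf : Continuous f) (z : S) (t : ℝ) :
    HasDerivAt (orb φ f z) (f (φ t z)) t :=
  ((hf.comp (cont_orbit hφ z)).integral_hasStrictDerivAt 0 t).hasDerivAt

theorem orb_cont (hφ : FD φ X m M L) {f : S → ℝ} (hf : Continuous f) (z : S) :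
    Continuous (orb φ f z) :=
  continuous_iff_continuousAt.2 fun t => (orb_deriv hφ hf z t).continuousAt

theorem orb_add (hφ : FD φ X m M L) {f : S → ℝ} (hf : Continuous f) (z : S) (s k : ℝ) :
    orb φ f z (s + k) = orb φ f z s + orb φ f (φ s z) k := by
  have hc : Continuous fun u : ℝ => f (φ u z) := hf.comp (cont_orbit hφ z)
  have e : orb φ f (φ s z) k = ∫ u in s..(s + k), f (φ u z) := by
    have h := intervalIntegral.integral_comp_add_right (a := 0) (b := k)
      (fun u : ℝ => f (φ u z)) s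
    rw [zero_add, add_comm k s] at h
    rw [← h, orb]
    simp only [hφ.add]
  rw [e, orb, orb]
  exact (intervalIntegral.integral_add_adjacent_intervals (hc.intervalIntegrable _ _)
    (hc.intervalIntegrable _ _)).symm

theorem orb_little (hφ : FD φ X m M L) {f : S → ℝ} (hf : Continuous f) (z : S) :
    (fun t : ℝ => orb φ f z t - t * f z) =o[𝓝 0] fun t : ℝ => t := by
  have h := (orb_deriv hφ hf z 0).isLittleO
  simpa [orb, hφ.zero] using h

theorem form_little (hφ : FD φ X m M L) {A : E → E} (hA : Continuous A) (z : S) :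
    (fun t : ℝ => orb φ (fun z => ⟪A z, X z⟫) z t - ⟪A z, (φ t z : E) - z⟫) =o[𝓝 0]
      fun t : ℝ => t := by
  have hf : Continuous fun z : S => ⟪A z, X z⟫ :=
    (hA.comp continuous_subtype_val).inner (cont_X hφ)
  have h1 := orb_deriv hφ hf z 0
  have h2 : HasDerivAt (fun t : ℝ => ⟪A z, (φ t z : E) - z⟫) ⟪A z, X z⟫ 0 := by
    have h := (hasDerivAt_const (0 : ℝ) (A z)).inner ℝ ((deriv_zero hφ z).sub_const (z : E))
    simpa using h
  have h := (h1.sub h2).isLittleO
  simpa [orb, hφ.zero] using h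

theorem dA_smul (A : E → E) (p a b : E) (k : ℝ) : dA A p (k • a) b = k * dA A p a b := by
  simp only [dA, map_smul, inner_smul_left, inner_smul_right, conj_trivial]
  ring

theorem cont_dA {A : E → E} (hA : ContDiff ℝ 1 A) {p a : ℝ → E} (hp : Continuous p)
    (ha : Continuous a) (b : E) : Continuous fun u : ℝ => dA A (p u) (a u) b := by
  have h : Continuous fun u : ℝ => fderiv ℝ A (p u) := (hA.continuous_fderiv one_ne_zero).comp hp
  exact ((h.clm_apply ha).inner continuous_const).sub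
    ((h.clm_apply continuous_const).inner ha)

/-- the increment at one point of the orbit -/
theorem incr (hφ : FD φ X m M L) {G : S → S} {ρ r : ℝ} (hG : Nrm X G ρ r)
    (hρ : 200 * ρ * M ≤ m) (hρ1 : ρ ≤ 1) {A : E → E} (hA : ContDiff ℝ 1 A) (β : S → ℝ → ℝ)
    (hβ : Continuous fun q : S × ℝ => β q.1 q.2)
    (hle : ∀ (x : S) (u : ℝ) (e : E), 0 ≤ u → u ≤ 1 → ‖e‖ ≤ m / 100 →
      β x u ≤ dA A ((x : E) + u • ((G x : E) - x)) (X x + e) ((G x : E) - x))
    (y : S) (kap : ℝ → ℝ) (hk : Tendsto kap (𝓝 0) (𝓝 0))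
    (hkap : ∀ k, G (φ k y) = φ (kap k) (G y)) :
    ∃ R : ℝ → ℝ, (R =o[𝓝 0] fun k : ℝ => k) ∧ ∀ᶠ k in 𝓝[>] (0 : ℝ),
      orb φ (fun z => ∫ u in (0 : ℝ)..1, β z u) y k -
        (orb φ (fun z => ⟪A z, X z⟫) y k + (seg A (φ k y) (G (φ k y)) - seg A y (G y)) -
          orb φ (fun z => ⟪A z, X z⟫) (G y) (kap k)) ≤ R k := by
  have hm := hφ.m_pos
  have hρ0 : 0 ≤ ρ := (hG.r_pos.trans_le hG.r_le).le
  have hb : Continuous fun z : S => ∫ u in (0 : ℝ)..1, β z u :=
    intervalIntegral.continuous_parametric_intervalIntegral_of_continuous' hβ 0 1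
  obtain ⟨D, hD, hDe⟩ := seg_deriv hA (y : E) (G y : E)
  have ta : Tendsto (fun k : ℝ => φ k y) (𝓝 0) (𝓝 y) := by
    have h := (cont_orbit hφ y).tendsto 0
    rwa [hφ.zero] at h
  have ta' : Tendsto (fun k : ℝ => (φ k y : E)) (𝓝 0) (𝓝 (y : E)) :=
    (continuous_subtype_val.tendsto y).comp ta
  have tb' : Tendsto (fun k : ℝ => (G (φ k y) : E)) (𝓝 0) (𝓝 (G y : E)) :=
    ((continuous_subtype_val.comp hG.cont).tendsto y).comp ta
  have oa : (fun k : ℝ => (φ k y : E) - y) =O[𝓝 0] fun k : ℝ => k := by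
    have h := (deriv_zero hφ y).isBigO_sub
    simpa [hφ.zero] using h
  have lp : ∀ᶠ k in 𝓝 (0 : ℝ), ‖(G (φ k y) : E) - G y - ((φ k y : E) - y)‖ ≤
      ρ * ‖(φ k y : E) - y‖ := by
    filter_upwards [ta'.eventually (closedBall_mem_nhds (y : E)
      (show (0 : ℝ) < 4 * r by linarith [hG.r_pos]))] with k hk'
    exact hG.lip _ _ (by rwa [← dist_eq_norm])
  have ob : (fun k : ℝ => (G (φ k y) : E) - G y) =O[𝓝 0] fun k : ℝ => k := by
    have h1 : (fun k : ℝ => (G (φ k y) : E) - G y - ((φ k y : E) - y)) =O[𝓝 0]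
        fun k : ℝ => (φ k y : E) - y := IsBigO.of_bound ρ lp
    simpa using (h1.trans oa).add oa
  have ok : kap =O[𝓝 0] fun k : ℝ => k := by
    refine IsBigO.trans (IsBigO.of_bound (2 / m) ?_) ob
    filter_upwards [hk.eventually (est hφ (G y) (half_pos hm))] with k hk'
    rw [← hkap] at hk'
    have h1 : ‖kap k • X (G y)‖ ≤ ‖(G (φ k y) : E) - G y‖ + m / 2 * |kap k| := by
      have h := norm_sub_le ((G (φ k y) : E) - G y)
        ((G (φ k y) : E) - G y - kap k • X (G y))
      rw [sub_sub_cancel] at h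
      linarith
    rw [norm_smul, Real.norm_eq_abs] at h1
    have h2 := mul_le_mul_of_nonneg_left (hφ.low (G y)) (abs_nonneg (kap k))
    rw [Real.norm_eq_abs, div_mul_eq_mul_div, le_div_iff₀ hm]
    linarith
  have r1 := orb_little hφ hb y
  have r2 := form_little hφ hA.continuous y
  have r3 := ((form_little hφ hA.continuous (G y)).comp_tendsto hk).trans_isBigO ok
  have r4 : (fun k : ℝ => seg A (φ k y) (G (φ k y)) - seg A y (G y) -
      D ((φ k y : E) - y, (G (φ k y) : E) - G y)) =o[𝓝 0] fun k : ℝ => k :=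
    (hD.isLittleO.comp_tendsto (ta'.prodMk_nhds tb')).trans_isBigO (oa.prod_left ob)
  refine ⟨_, ((r1.sub r2).add r3).sub r4, ?_⟩
  have hκ : (0 : ℝ) < m / 400 := by linarith
  filter_upwards [self_mem_nhdsWithin, mem_nhdsWithin_of_mem_nhds lp,
    mem_nhdsWithin_of_mem_nhds (est hφ y hκ)] with k hk0 h1 h2
  have hk0' : (0 : ℝ) < k := hk0
  rw [abs_of_pos hk0'] at h2
  have h3 : ‖(φ k y : E) - y‖ ≤ (M + m / 400) * k := by
    have h := norm_add_le ((φ k y : E) - y - k • X y) (k • X y)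
    rw [sub_add_cancel, norm_smul, Real.norm_eq_abs, abs_of_pos hk0'] at h
    have := mul_le_mul_of_nonneg_left (hφ.up y) hk0'.le
    linarith
  have h4 : ‖(G (φ k y) : E) - G y - ((φ k y : E) - y)‖ ≤ (m / 200 + m / 400) * k := by
    refine (h1.trans (mul_le_mul_of_nonneg_left h3 hρ0)).trans ?_
    rw [← mul_assoc]
    refine mul_le_mul_of_nonneg_right ?_ hk0'.le
    nlinarith
  have hI : k * ∫ u in (0 : ℝ)..1, β y u ≤ ∫ u in (0 : ℝ)..1,
      dA A ((y : E) + u • ((G y : E) - y))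
        ((φ k y : E) - y + u • ((G (φ k y) : E) - G y - ((φ k y : E) - y))) ((G y : E) - y) := by
    rw [← intervalIntegral.integral_const_mul]
    refine intervalIntegral.integral_mono_on zero_le_one
      ((continuous_const.mul (hβ.comp (continuous_const.prodMk continuous_id))).intervalIntegrable
        _ _) ((cont_dA hA (by fun_prop) (by fun_prop) _).intervalIntegrable _ _) fun u hu => ?_
    have e : (φ k y : E) - y + u • ((G (φ k y) : E) - G y - ((φ k y : E) - y)) =
        k • (X y + k⁻¹ • ((φ k y : E) - y - k • X y +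
          u • ((G (φ k y) : E) - G y - ((φ k y : E) - y)))) := by
      rw [smul_add, smul_inv_smul₀ hk0'.ne']
      abel
    rw [e, dA_smul]
    refine mul_le_mul_of_nonneg_left (hle y u _ hu.1 hu.2 ?_) hk0'.le
    rw [norm_smul, norm_inv, Real.norm_eq_abs, abs_of_pos hk0', inv_mul_le_iff₀ hk0']
    refine (norm_add_le _ _).trans ?_
    rw [norm_smul, Real.norm_eq_abs, abs_of_nonneg hu.1]
    have h5 := mul_le_mul_of_nonneg_right hu.2
      (norm_nonneg ((G (φ k y) : E) - G y - ((φ k y : E) - y)))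
    linarith
  have h6 := hDe ((φ k y : E) - y) ((G (φ k y) : E) - G y)
  simp only [Function.comp_apply]
  rw [← hkap]
  linarith

end DiniAux

/-- Stokes' inequality on the strip between the orbits of `x` and of `h x` -/
theorem strip {φ : ℝ → S → S} {X : S → E} {m M L : ℝ} (hφ : FD φ X m M L) {G : S → S} {ρ r : ℝ}
    (hG : Nrm X G ρ r) (hρ : 200 * ρ * M ≤ m) (hρ1 : ρ ≤ 1) (h : S → S) (T : S → ℝ)
    (hT : Continuous T) (hc : ∀ t x, h (φ t x) = φ t (h x)) (hGe : ∀ x, G x = φ (T x) (h x))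
    {A : E → E} (hA : ContDiff ℝ 1 A) (β : S → ℝ → ℝ)
    (hβ : Continuous fun q : S × ℝ => β q.1 q.2)
    (hle : ∀ (x : S) (u : ℝ) (e : E), 0 ≤ u → u ≤ 1 → ‖e‖ ≤ m / 100 →
      β x u ≤ dA A ((x : E) + u • ((G x : E) - x)) (X x + e) ((G x : E) - x))
    (x : S) (t : ℝ) (ht : 0 ≤ t) :
    orb φ (fun z => ∫ u in (0 : ℝ)..1, β z u) x t ≤
      orb φ (fun z => ⟪A z, X z⟫) x t + seg A (φ t x) (G (φ t x)) -
        orb φ (fun z => ⟪A z, X z⟫) (h x) (t + T (φ t x)) -
        (seg A x (G x) - orb φ (fun z => ⟪A z, X z⟫) (h x) (T x)) := by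
  have hb : Continuous fun z : S => ∫ u in (0 : ℝ)..1, β z u :=
    intervalIntegral.continuous_parametric_intervalIntegral_of_continuous' hβ 0 1
  have ha : Continuous fun z : S => ⟪A z, X z⟫ :=
    (hA.continuous.comp continuous_subtype_val).inner (DiniAux.cont_X hφ)
  have ho := DiniAux.cont_orbit hφ x
  let f : ℝ → ℝ := fun s => orb φ (fun z => ∫ u in (0 : ℝ)..1, β z u) x s -
    (orb φ (fun z => ⟪A z, X z⟫) x s + seg A (φ s x) (G (φ s x)) -
      orb φ (fun z => ⟪A z, X z⟫) (h x) (s + T (φ s x)))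
  have hf : Continuous f :=
    (DiniAux.orb_cont hφ hb x).sub (((DiniAux.orb_cont hφ ha x).add
      ((continuous_seg hA.continuous).comp ((continuous_subtype_val.comp ho).prodMk
        (continuous_subtype_val.comp (hG.cont.comp ho))))).sub
      ((DiniAux.orb_cont hφ ha (h x)).comp (continuous_id.add (hT.comp ho))))
  have key := image_le_of_liminf_slope_right_le_deriv_boundary (f := f) (a := 0) (b := t)
    hf.continuousOn (B := fun _ => f 0) (B' := fun _ => 0) le_rfl continuousOn_const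
    (fun s _ => hasDerivWithinAt_const _ _ _) (fun s _ c hc0 => ?_) (x := t) ⟨ht, le_rfl⟩
  · have e0 : f 0 = -(seg A x (G x) - orb φ (fun z => ⟪A z, X z⟫) (h x) (T x)) := by
      simp [f, orb, hφ.zero]
    have e1 : f t = orb φ (fun z => ∫ u in (0 : ℝ)..1, β z u) x t -
      (orb φ (fun z => ⟪A z, X z⟫) x t + seg A (φ t x) (G (φ t x)) -
        orb φ (fun z => ⟪A z, X z⟫) (h x) (t + T (φ t x))) := rfl
    have key' : f t ≤ f 0 := key
    linarith
  · have hk : Tendsto (fun k : ℝ => k + T (φ k (φ s x)) - T (φ s x)) (𝓝 0) (𝓝 0) := by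
      have h1 : Continuous fun k : ℝ => k + T (φ k (φ s x)) - T (φ s x) :=
        (continuous_id.add (hT.comp (DiniAux.cont_orbit hφ (φ s x)))).sub continuous_const
      have h2 := h1.tendsto 0
      simpa [hφ.zero] using h2
    obtain ⟨R, hR, hev⟩ := DiniAux.incr hφ hG hρ hρ1 hA β hβ hle (φ s x) _ hk fun k => by
      generalize φ s x = y
      rw [hGe y, ← hφ.add (k + T (φ k y) - T y), hGe (φ k y), hc k, ← hφ.add (T (φ k y))]
      congr 1
      ring
    have h1 : ∀ᶠ k in 𝓝[>] (0 : ℝ), f (s + k) - f s < c * k := by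
      filter_upwards [self_mem_nhdsWithin, hev,
        mem_nhdsWithin_of_mem_nhds (hR.bound (half_pos hc0))] with k hk0 h2 h3
      have hk0' : (0 : ℝ) < k := hk0
      rw [Real.norm_eq_abs, Real.norm_eq_abs, abs_of_pos hk0'] at h3
      have e1 : φ (s + k) x = φ k (φ s x) := by rw [add_comm, hφ.add]
      have e2 : G (φ s x) = φ (s + T (φ s x)) (h x) := by
        rw [hGe (φ s x), hc, ← hφ.add, add_comm]
      have e3 := DiniAux.orb_add hφ ha (h x) (s + T (φ s x))
        (k + T (φ k (φ s x)) - T (φ s x))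
      rw [← e2, show s + T (φ s x) + (k + T (φ k (φ s x)) - T (φ s x)) =
        s + k + T (φ k (φ s x)) by ring] at e3
      have e4 := DiniAux.orb_add hφ ha x s k
      have e5 := DiniAux.orb_add hφ hb x s k
      have h4 := mul_pos hc0 hk0'
      have h5 := le_abs_self (R k)
      simp only [f, e1]
      linarith
    have h2 : Tendsto (fun z : ℝ => z - s) (𝓝[>] s) (𝓝[>] 0) := by
      refine tendsto_nhdsWithin_iff.2 ⟨?_, ?_⟩
      · have h3 : Tendsto (fun z : ℝ => z - s) (𝓝 s) (𝓝 (s - s)) :=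
          (continuous_id.sub continuous_const).tendsto s
        rw [sub_self] at h3
        exact h3.mono_left nhdsWithin_le_nhds
      · filter_upwards [self_mem_nhdsWithin] with z hz
        exact sub_pos.2 (mem_Ioi.1 hz)
    refine Eventually.frequently ?_
    filter_upwards [h2.eventually h1, self_mem_nhdsWithin] with z hz hz0
    rw [add_sub_cancel] at hz
    rw [slope_def_field, div_lt_iff₀ (sub_pos.2 (mem_Ioi.1 hz0))]
    exact hz

end Pool.Agent.Lib.MP_399f8e_an.Dc
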