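import Pool.Agent.Lib.MP_399f8e_an.Dc.Par

open Set Filter Topology Metric
open scoped RealInnerProductSpace
open Pool.Agent.Lib.MP_399f8e_an.Rg Pool.Agent.Lib.MP_399f8e_an.Rg.CrossAux

noncomputable section

namespace Pool.Agent.Lib.MP_399f8e_an.Dc

namespace FormAux

/-- the integral of `f` along the segment from `p` to `p - R a` -/
def I (R : ℝ) (a : E) (f : E → ℝ) (p : E) : ℝ := ∫ s in (0 : ℝ)..R, f (p - s • a)

lemma cont_I (R : ℝ) (a : E) {f : E → ℝ} (hf : Continuous f) : Continuous (I R a f) := by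
  unfold I
  refine intervalIntegral.continuous_parametric_intervalIntegral_of_continuous'
    (f := fun p (s : ℝ) => f (p - s • a)) ?_ 0 R
  exact hf.comp (continuous_fst.sub (continuous_snd.smul continuous_const))

lemma hasF (R : ℝ) (a : E) {f : E → ℝ} (hf : ContDiff ℝ 1 f) (p : E) :
    HasFDerivAt (I R a f) (∫ s in (0 : ℝ)..R, fderiv ℝ f (p - s • a)) p := by
  have h1 := contDiff_one_iff_fderiv.1 hf
  refine par (fun s q => f (q - s • a)) (fun s q => fderiv ℝ f (q - s • a)) ?_ ?_ ?_ 0 R p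
  · exact hf.continuous.comp (continuous_snd.sub (continuous_fst.smul continuous_const))
  · exact h1.2.comp (continuous_snd.sub (continuous_fst.smul continuous_const))
  · intro s q
    have h2 := (h1.1 (q - s • a)).hasFDerivAt.comp q ((hasFDerivAt_id q).sub_const (s • a))
    simpa [Function.comp_def] using h2

lemma cd_I (R : ℝ) (a : E) {f : E → ℝ} (hf : ContDiff ℝ 1 f) : ContDiff ℝ 1 (I R a f) := by
  have h1 := contDiff_one_iff_fderiv.1 hf
  refine contDiff_one_iff_fderiv.2 ⟨fun p => (hasF R a hf p).differentiableAt, ?_⟩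
  have e : fderiv ℝ (I R a f) = fun p => ∫ s in (0 : ℝ)..R, fderiv ℝ f (p - s • a) :=
    funext fun p => (hasF R a hf p).fderiv
  rw [e]
  refine intervalIntegral.continuous_parametric_intervalIntegral_of_continuous'
    (f := fun p (s : ℝ) => fderiv ℝ f (p - s • a)) ?_ 0 R
  exact h1.2.comp (continuous_fst.sub (continuous_snd.smul continuous_const))

lemma fd_I (R : ℝ) (a : E) {f : E → ℝ} (hf : ContDiff ℝ 1 f) (p z : E) :
    fderiv ℝ (I R a f) p z = I R a (fun q => fderiv ℝ f q z) p := by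
  have h1 := contDiff_one_iff_fderiv.1 hf
  rw [(hasF R a hf p).fderiv, ContinuousLinearMap.intervalIntegral_apply]
  · rfl
  · exact (h1.2.comp (continuous_const.sub (continuous_id.smul continuous_const))).intervalIntegrable
      _ _

lemma ftc (R : ℝ) (a : E) {f : E → ℝ} (hf : ContDiff ℝ 1 f) (p : E) :
    fderiv ℝ (I R a f) p a = f p - f (p - R • a) := by
  have h1 := contDiff_one_iff_fderiv.1 hf
  rw [fd_I R a hf]
  unfold I
  have hd : ∀ s ∈ uIcc (0 : ℝ) R,
      HasDerivAt (fun s : ℝ => -f (p - s • a)) (fderiv ℝ f (p - s • a) a) s := by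
    intro s _
    have h2 : HasDerivAt (fun s : ℝ => p - s • a) (-a) s := by
      simpa using ((hasDerivAt_id s).smul_const a).const_sub p
    have h3 := ((h1.1 (p - s • a)).hasFDerivAt.comp_hasDerivAt s h2).fun_neg
    rw [map_neg, neg_neg] at h3
    exact h3
  rw [intervalIntegral.integral_eq_sub_of_hasDerivAt hd]
  · simp only [zero_smul, sub_zero]
    ring
  · exact ((h1.2.comp (continuous_const.sub (continuous_id.smul continuous_const))).clm_apply
      continuous_const).intervalIntegrable _ _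

lemma I_congr {R : ℝ} (hR : 0 ≤ R) (a : E) {f g : E → ℝ} (p : E)
    (h : ∀ s : ℝ, 0 ≤ s → s ≤ R → f (p - s • a) = g (p - s • a)) : I R a f p = I R a g p := by
  unfold I
  refine intervalIntegral.integral_congr fun s hs => ?_
  rw [uIcc_of_le hR] at hs
  exact h s hs.1 hs.2

lemma I_zero {R : ℝ} (hR : 0 ≤ R) (a : E) {f : E → ℝ} (p : E)
    (h : ∀ s : ℝ, 0 ≤ s → s ≤ R → f (p - s • a) = 0) : I R a f p = 0 := by
  rw [I_congr hR a (g := fun _ => 0) p h]
  simp [I]

lemma I_ne {R : ℝ} (hR : 0 ≤ R) (a : E) {f : E → ℝ} (p : E) (h : I R a f p ≠ 0) :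
    ∃ s : ℝ, 0 ≤ s ∧ f (p - s • a) ≠ 0 := by
  by_contra hc
  refine h (I_zero hR a p fun s hs _ => ?_)
  by_contra h2
  exact hc ⟨s, hs, h2⟩

lemma I_nonneg {R : ℝ} (hR : 0 ≤ R) (a : E) {f : E → ℝ} (hf : ∀ q, 0 ≤ f q) (p : E) :
    0 ≤ I R a f p :=
  intervalIntegral.integral_nonneg hR fun _ _ => hf _

lemma I_pos {R : ℝ} (hR : 0 < R) (a : E) {f : E → ℝ} (hc : Continuous f) (hf : ∀ q, 0 ≤ f q)
    (p : E) (s : ℝ) (h0 : 0 ≤ s) (h1 : s ≤ R) (h : 0 < f (p - s • a)) : 0 < I R a f p :=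
  intervalIntegral.integral_pos hR
    (hc.comp (continuous_const.sub (continuous_id.smul continuous_const))).continuousOn
    (fun _ _ => hf _) ⟨s, ⟨h0, h1⟩, h⟩

lemma far (y y' w : E) (hy : ‖y‖ = 1) (hy' : ‖y'‖ = 1) (hp : 0 < ⟪y, y'⟫)
    (hw : w ∉ Submodule.span ℝ ({y, y'} : Set E)) :
    ∃ R₀ : ℝ, ∀ s t u : ℝ, 0 ≤ s → 0 ≤ t → 0 ≤ u → ‖s • y + t • y' + u • w‖ < 2 →
      s < R₀ ∧ t < R₀ ∧ u < R₀ := by
  set P := Submodule.span ℝ ({y, y'} : Set E) with hP
  have hcl : IsClosed (P : Set E) := P.closed_of_finiteDimensional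
  have hd : 0 < infDist w (P : Set E) :=
    (hcl.notMem_iff_infDist_pos ⟨0, P.zero_mem⟩).1 hw
  set d := infDist w (P : Set E) with hdd
  have hyP : y ∈ P := Submodule.subset_span (by simp)
  have hyP' : y' ∈ P := Submodule.subset_span (by simp)
  refine ⟨2 + 2 / d + 2 / d * ‖w‖, fun s t u hs ht hu hN => ?_⟩
  have hu2 : u < 2 / d := by
    rcases hu.eq_or_lt with h0 | h0
    · rw [← h0]; positivity
    · have hm : -(u⁻¹ • (s • y + t • y')) ∈ P :=
        P.neg_mem (P.smul_mem _ (P.add_mem (P.smul_mem _ hyP) (P.smul_mem _ hyP')))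
      have h1 : d ≤ dist w (-(u⁻¹ • (s • y + t • y'))) := infDist_le_dist_of_mem hm
      have e : s • y + t • y' + u • w = u • (w - -(u⁻¹ • (s • y + t • y'))) := by
        rw [sub_neg_eq_add, smul_add u w, smul_smul, mul_inv_cancel₀ h0.ne', one_smul]
        abel
      rw [e, norm_smul, Real.norm_of_nonneg hu, ← dist_eq_norm] at hN
      rw [lt_div_iff₀ hd]
      nlinarith
  have h1 : ‖s • y + t • y'‖ ≤ ‖s • y + t • y' + u • w‖ + u * ‖w‖ := by
    have h2 := norm_sub_le (s • y + t • y' + u • w) (u • w)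
    rwa [add_sub_cancel_right, norm_smul, Real.norm_of_nonneg hu] at h2
  have h2 : u * ‖w‖ ≤ 2 / d * ‖w‖ := mul_le_mul_of_nonneg_right hu2.le (norm_nonneg w)
  have h3 : ‖s • y + t • y'‖ ^ 2 = s ^ 2 + 2 * (s * (t * ⟪y, y'⟫)) + t ^ 2 := by
    rw [norm_add_sq_real, norm_smul, norm_smul, hy, hy', Real.norm_of_nonneg hs,
      Real.norm_of_nonneg ht, real_inner_smul_left, real_inner_smul_right]
    ring
  have h4 : 0 ≤ s * (t * ⟪y, y'⟫) := by positivity
  have h5 : s ≤ ‖s • y + t • y'‖ := by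
    refine abs_le_of_sq_le_sq' ?_ (norm_nonneg _) |>.2
    nlinarith [sq_nonneg t]
  have h6 : t ≤ ‖s • y + t • y'‖ := by
    refine abs_le_of_sq_le_sq' ?_ (norm_nonneg _) |>.2
    nlinarith [sq_nonneg s]
  have h7 : 0 < 2 / d := by positivity
  have h8 : 0 ≤ 2 / d * ‖w‖ := by positivity
  exact ⟨by linarith, by linarith, by linarith⟩

lemma span_ne (y y' : E) : Submodule.span ℝ ({y, y'} : Set E) ≠ ⊤ := by
  classical
  refine (span_lt_top_of_card_lt_finrank (R := ℝ) (s := ({y, y'} : Set E)) ?_).ne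
  have h1 : ({y, y'} : Set E).toFinset.card ≤ 2 := by
    simpa using Finset.card_le_two (a := y) (b := y')
  have h2 : Module.finrank ℝ E = 4 := by simp
  omega

lemma lin (l : E →L[ℝ] ℝ) : ∃ c : E, ∀ z, l z = ⟪c, z⟫ :=
  ⟨(InnerProductSpace.toDual ℝ E).symm l, fun _ => by simp⟩

lemma five (l : E →L[ℝ] ℝ) (y y' w a b : E) :
    l a * ⟪cr y y' w, b⟫ - l b * ⟪cr y y' w, a⟫ =
      l y * ⟪cr y' w a, b⟫ - l y' * ⟪cr y w a, b⟫ + l w * ⟪cr y a b, y'⟫ := by
  obtain ⟨c, hc⟩ := lin l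
  simp only [hc, inn, cr0, cr1, cr2, cr3]
  unfold mn
  ring

/-- the three derivatives of the triple integral on the unit ball -/
lemma three {R : ℝ} (hR : 0 ≤ R) {ψ : E → ℝ} (hψ : ContDiff ℝ 1 ψ) (y y' w p : E)
    (h : ∀ s t u : ℝ, 0 ≤ s → 0 ≤ t → 0 ≤ u → (s = R ∨ t = R ∨ u = R) →
      ψ (p - (s • y + t • y' + u • w)) = 0) :
    fderiv ℝ (I R y (I R y' (I R w ψ))) p y = I R y' (I R w ψ) p ∧
    fderiv ℝ (I R y (I R y' (I R w ψ))) p y' = I R y (I R w ψ) p ∧
    fderiv ℝ (I R y (I R y' (I R w ψ))) p w = I R y (I R y' ψ) p := by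
  have e : ∀ s t u : ℝ, p - s • y - t • y' - u • w = p - (s • y + t • y' + u • w) := by
    intro s t u
    abel
  have h1 := cd_I R w hψ
  have h2 := cd_I R y' h1
  refine ⟨?_, ?_, ?_⟩
  · rw [ftc R y h2, I_zero hR y' (p - R • y), sub_zero]
    intro t ht _
    refine I_zero hR w _ fun u hu _ => ?_
    rw [e]
    exact h R t u hR ht hu (Or.inl rfl)
  · rw [fd_I R y h2]
    refine I_congr hR y p fun s hs _ => ?_
    rw [ftc R y' h1, I_zero hR w (p - s • y - R • y'), sub_zero]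
    intro u hu _
    rw [e]
    exact h s R u hs hR hu (Or.inr (Or.inl rfl))
  · rw [fd_I R y h2]
    refine I_congr hR y p fun s hs _ => ?_
    rw [fd_I R y' h1]
    refine I_congr hR y' _ fun t ht _ => ?_
    rw [ftc R w hψ, e, h s t R hs ht hR (Or.inr (Or.inr rfl)), sub_zero]

end FormAux

open FormAux in
/-- a one-form whose derivative is dual to the cone over a closed polygon -/
theorem exists_form (Q : ℕ) (y : ℕ → S) (hper : y Q = y 0)
    (hpos : ∀ k, 0 < ⟪(y k : E), (y (k + 1) : E)⟫) (ε : ℝ) (hε : 0 < ε) (hε1 : ε ≤ 1) :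
    ∃ (A : E → E) (F : ℕ → E → ℝ), ContDiff ℝ 1 A ∧ (∀ k, Continuous (F k)) ∧
      (∀ k p, 0 ≤ F k p) ∧ 0 < F 0 (y 0) ∧
      (∀ k p, F k p ≠ 0 → ∃ s t : ℝ, 0 ≤ s ∧ 0 ≤ t ∧
        ‖p - s • (y k : E) - t • (y (k + 1) : E)‖ ≤ ε) ∧
      ∀ p a b : E, ‖p‖ ≤ 1 →
        dA A p a b = ∑ k ∈ Finset.range Q, F k p * ⟪cr (y k) a b, (y (k + 1) : E)⟫ := by
  let β : ContDiffBump (0 : E) := ⟨ε / 2, ε, half_pos hε, half_lt_self hε⟩
  have hψ : ContDiff ℝ 1 (β : E → ℝ) := β.contDiff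
  have hz : ∀ q : E, ε ≤ ‖q‖ → β q = 0 := fun q hq =>
    β.zero_of_le_dist (by rwa [dist_zero_right])
  obtain ⟨w, hw⟩ := Submodule.exists_forall_notMem_of_forall_ne_top
    (fun k : Fin Q => Submodule.span ℝ ({(y k : E), (y (k + 1) : E)} : Set E))
    fun k => span_ne _ _
  choose R₀ hR₀ using fun k : Fin Q =>
    far (y k) (y (k + 1)) w (norm_coe _) (norm_coe _) (hpos k) (hw k)
  obtain ⟨R, hR1, hRk⟩ : ∃ R : ℝ, 1 ≤ R ∧ ∀ k, R₀ k ≤ R := by
    have h0 : 0 ≤ ∑ k, |R₀ k| := Finset.sum_nonneg fun k _ => abs_nonneg _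
    refine ⟨1 + ∑ k, |R₀ k|, by linarith, fun k => ?_⟩
    have h1 := Finset.single_le_sum (f := fun k => |R₀ k|) (fun k _ => abs_nonneg _)
      (Finset.mem_univ k)
    have h2 := le_abs_self (R₀ k)
    linarith
  have hR0 : 0 < R := by linarith
  have hJ : ∀ k, ContDiff ℝ 1 (I R (y k) (I R (y (k + 1)) (I R w β))) := fun k =>
    cd_I _ _ (cd_I _ _ (cd_I _ _ hψ))
  refine ⟨fun p => ∑ k ∈ Finset.range Q,
      I R (y k) (I R (y (k + 1)) (I R w β)) p • cr (y k) (y (k + 1)) w,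
    fun k => I R (y k) (I R (y (k + 1)) β), ?_, ?_, ?_, ?_, ?_, ?_⟩
  · exact ContDiff.sum fun k _ => (hJ k).smul contDiff_const
  · exact fun k => cont_I _ _ (cont_I _ _ β.continuous)
  · exact fun k p => I_nonneg hR0.le _ (I_nonneg hR0.le _ β.nonneg') p
  · refine I_pos hR0 _ (cont_I _ _ β.continuous) (I_nonneg hR0.le _ β.nonneg') _ 1 zero_le_one
      hR1 (I_pos hR0 _ β.continuous β.nonneg' _ 0 le_rfl hR0.le ?_)
    refine β.pos_of_mem_ball ?_
    simpa using hε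
  · intro k p h
    obtain ⟨s, hs, h1⟩ := I_ne hR0.le _ _ h
    obtain ⟨t, ht, h2⟩ := I_ne hR0.le _ _ h1
    exact ⟨s, t, hs, ht, le_of_not_ge fun h3 => h2 (hz _ h3)⟩
  · intro p a b hp
    have hD : HasFDerivAt (fun p => ∑ k ∈ Finset.range Q,
        I R (y k) (I R (y (k + 1)) (I R w β)) p • cr (y k) (y (k + 1)) w)
        (∑ k ∈ Finset.range Q, (fderiv ℝ (I R (y k) (I R (y (k + 1)) (I R w β))) p).smulRight
          (cr (y k) (y (k + 1)) w)) p :=
      HasFDerivAt.fun_sum fun k _ =>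
        (((contDiff_one_iff_fderiv.1 (hJ k)).1 p).hasFDerivAt).smul_const _
    unfold dA
    rw [hD.fderiv]
    simp only [sum_apply, ContinuousLinearMap.smulRight_apply, sum_inner,
      real_inner_smul_left]
    rw [← Finset.sum_sub_distrib]
    have key : ∀ k ∈ Finset.range Q,
        fderiv ℝ (I R (y k) (I R (y (k + 1)) (I R w β))) p a * ⟪cr (y k) (y (k + 1)) w, b⟫ -
          fderiv ℝ (I R (y k) (I R (y (k + 1)) (I R w β))) p b * ⟪cr (y k) (y (k + 1)) w, a⟫ =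
        (I R (y (k + 1)) (I R w β) p * ⟪cr (y (k + 1)) w a, b⟫ -
          I R (y k) (I R w β) p * ⟪cr (y k) w a, b⟫) +
        I R (y k) (I R (y (k + 1)) β) p * ⟪cr (y k) a b, (y (k + 1) : E)⟫ := by
      intro k hk
      obtain ⟨e1, e2, e3⟩ := three hR0.le hψ (y k) (y (k + 1)) w p (by
        intro s t u hs ht hu h
        refine hz _ ?_
        have h1 : 2 ≤ ‖s • (y k : E) + t • (y (k + 1) : E) + u • w‖ := by
          by_contra h2
          obtain ⟨a1, a2, a3⟩ := hR₀ ⟨k, Finset.mem_range.1 hk⟩ s t u hs ht hu (lt_of_not_ge h2)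
          have a4 := hRk ⟨k, Finset.mem_range.1 hk⟩
          rcases h with h | h | h <;> linarith
        have h2 := norm_sub_norm_le (s • (y k : E) + t • (y (k + 1) : E) + u • w) p
        rw [norm_sub_rev] at h2
        linarith)
      rw [five, e1, e2, e3]
    rw [Finset.sum_congr rfl key, Finset.sum_add_distrib,
      Finset.sum_range_sub (fun k => I R (y k) (I R w β) p * ⟪cr (y k) w a, b⟫), hper]
    ring

end Pool.Agent.Lib.MP_399f8e_an.Dc
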