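import Pool.Agent.Lib.MP_399f8e_an.Dc.Defs
import Pool.Agent.Lib.MP_399f8e_an.Rg.Curve

open Set Filter Topology Metric
open scoped RealInnerProductSpace
open Pool.Agent.Lib.MP_399f8e_an.Rg Pool.Agent.Lib.MP_399f8e_an.Rg.CrossAux

noncomputable section

namespace Pool.Agent.Lib.MP_399f8e_an.Dc

namespace PosAux

lemma cr_le (a b c : E) : ‖cr a b c‖ ≤ 2 * (‖a‖ * ‖b‖ * ‖c‖) := by
  have g := gram a b c
  simp only [real_inner_self_eq_norm_sq] at g
  have h1 := abs_real_inner_le_norm a b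
  have h2 := abs_real_inner_le_norm b c
  have h3 := abs_real_inner_le_norm a c
  have h4 : |⟪a, b⟫| * |⟪b, c⟫| * |⟪a, c⟫| ≤ (‖a‖ * ‖b‖) * (‖b‖ * ‖c‖) * (‖a‖ * ‖c‖) :=
    mul_le_mul (mul_le_mul h1 h2 (abs_nonneg _) (by positivity)) h3 (abs_nonneg _) (by positivity)
  have h5 : ⟪a, b⟫ * ⟪b, c⟫ * ⟪a, c⟫ ≤ |⟪a, b⟫| * |⟪b, c⟫| * |⟪a, c⟫| := by
    rw [← abs_mul, ← abs_mul]; exact le_abs_self _
  have h6 : 0 ≤ ‖a‖ ^ 2 * (⟪b, c⟫ * ⟪b, c⟫) := mul_nonneg (sq_nonneg _) (mul_self_nonneg _)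
  have h7 : 0 ≤ ‖c‖ ^ 2 * (⟪a, b⟫ * ⟪a, b⟫) := mul_nonneg (sq_nonneg _) (mul_self_nonneg _)
  have h8 : 0 ≤ ‖b‖ ^ 2 * (⟪a, c⟫ * ⟪a, c⟫) := mul_nonneg (sq_nonneg _) (mul_self_nonneg _)
  have h9 : 0 ≤ (‖a‖ * ‖b‖ * ‖c‖) ^ 2 := sq_nonneg _
  refine abs_le_of_sq_le_sq' ?_ (by positivity) |>.2
  have e1 : (‖a‖ * ‖b‖) * (‖b‖ * ‖c‖) * (‖a‖ * ‖c‖) = (‖a‖ * ‖b‖ * ‖c‖) ^ 2 := by ring
  have e2 : ‖cr a b c‖ ^ 2 = (‖a‖ * ‖b‖ * ‖c‖) ^ 2 - ‖a‖ ^ 2 * (⟪b, c⟫ * ⟪b, c⟫)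
      - ‖c‖ ^ 2 * (⟪a, b⟫ * ⟪a, b⟫) - ‖b‖ ^ 2 * (⟪a, c⟫ * ⟪a, c⟫)
      + 2 * (⟪a, b⟫ * ⟪b, c⟫ * ⟪a, c⟫) := by rw [g]; ring
  have e3 : (2 * (‖a‖ * ‖b‖ * ‖c‖)) ^ 2 = 4 * (‖a‖ * ‖b‖ * ‖c‖) ^ 2 := by ring
  rw [e1] at h4
  rw [e2, e3]
  linarith

lemma cr_split (a b b' c c' : E) :
    cr a b c - cr a b' c' = cr a (b - b') c + cr a b' (c - c') := by
  ext i
  fin_cases i <;> simp [cr, mn] <;> ring

lemma cr_ge {m : ℝ} (hm : 0 < m) (z w : S) (b : E) (hb : m ≤ ‖b‖) (hp : ⟪(z : E), b⟫ = 0)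
    (ho : ⟪(w : E) - z, b⟫ = 0) (h1 : ‖(w : E) - z‖ ≤ 1) :
    m * ‖(w : E) - z‖ / 2 ≤ ‖cr z b ((w : E) - z)‖ := by
  have g := gram z b ((w : E) - z)
  have ho' : ⟪b, (w : E) - z⟫ = 0 := by rw [real_inner_comm]; exact ho
  have hv : ⟪(z : E), (w : E) - z⟫ = -(‖(w : E) - z‖ ^ 2 / 2) := by
    rw [real_inner_comm]; exact inner_v z w
  simp only [real_inner_self_eq_norm_sq, hp, ho', hv, norm_coe] at g
  set V := ‖(w : E) - z‖ with hV
  have hV0 : 0 ≤ V := norm_nonneg _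
  refine abs_le_of_sq_le_sq' ?_ (norm_nonneg _) |>.2
  have e1 : ‖cr z b ((w : E) - z)‖ ^ 2 = (‖b‖ * V) ^ 2 * (1 - V ^ 2 / 4) := by rw [g]; ring
  have e2 : (m * V) ^ 2 ≤ (‖b‖ * V) ^ 2 :=
    pow_le_pow_left₀ (by positivity) (mul_le_mul_of_nonneg_right hb hV0) 2
  have e3 : V ^ 2 ≤ 1 := pow_le_one₀ hV0 h1
  have e4 : (‖b‖ * V) ^ 2 * (1 / 4) ≤ (‖b‖ * V) ^ 2 * (1 - V ^ 2 / 4) :=
    mul_le_mul_of_nonneg_left (by linarith) (sq_nonneg _)
  rw [e1]
  nlinarith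

lemma close (x y y' : S) (v : E) (u s t h ε : ℝ) (hu0 : 0 ≤ u) (hu1 : u ≤ 1) (hs : 0 ≤ s)
    (ht : 0 ≤ t) (hv : ‖v‖ ≤ 1) (hh0 : 0 ≤ h) (hh : h ≤ ‖v‖ / 100) (hε : ε ≤ ‖v‖ / 100)
    (hy : ‖(y' : E) - y‖ ≤ 2 * h)
    (hq : ‖(x : E) + u • v - s • (y : E) - t • (y' : E)‖ ≤ ε) : ‖(y : E) - x‖ ≤ 4 * ‖v‖ := by
  have a1 : ‖u • v‖ ≤ ‖v‖ := by
    rw [norm_smul, Real.norm_eq_abs, abs_of_nonneg hu0]
    exact mul_le_of_le_one_left (norm_nonneg _) hu1
  have a2 : ‖t • ((y' : E) - y)‖ ≤ t * (2 * h) := by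
    rw [norm_smul, Real.norm_eq_abs, abs_of_nonneg ht]
    exact mul_le_mul_of_nonneg_left hy ht
  have a3 : (s + t) • (y : E) - x = u • v - ((x : E) + u • v - s • (y : E) - t • (y' : E))
      - t • ((y' : E) - y) := by module
  have a4 : ‖(s + t) • (y : E) - x‖ ≤ ‖v‖ + ε + t * (2 * h) := by
    rw [a3]
    refine (norm_sub_le _ _).trans ?_
    have := norm_sub_le (u • v) ((x : E) + u • v - s • (y : E) - t • (y' : E))
    linarith
  have a5 : ‖(s + t) • (y : E)‖ = s + t := by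
    rw [norm_smul, norm_coe, mul_one, Real.norm_eq_abs, abs_of_nonneg (by linarith)]
  have a6 : |s + t - 1| ≤ ‖(s + t) • (y : E) - x‖ := by
    have := abs_norm_sub_norm_le ((s + t) • (y : E)) x
    rwa [a5, norm_coe] at this
  have a7 : t ≤ 6 := by
    have b1 := (abs_le.1 a6).2
    have b2 : t * (2 * h) ≤ t * (1 / 2) := mul_le_mul_of_nonneg_left (by linarith) ht
    linarith
  have a8 : t * (2 * h) ≤ 6 * (2 * h) := mul_le_mul_of_nonneg_right a7 (by linarith)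
  have a9 : (y : E) - x = ((s + t) • (y : E) - x) - (s + t - 1) • (y : E) := by module
  have a10 : ‖(s + t - 1) • (y : E)‖ = |s + t - 1| := by
    rw [norm_smul, norm_coe, mul_one, Real.norm_eq_abs]
  have a11 := norm_sub_le ((s + t) • (y : E) - x) ((s + t - 1) • (y : E))
  rw [← a9, a10] at a11
  have := norm_nonneg v
  linarith

end PosAux

open PosAux CurveAux in
/-- a closed polygon that is positively transverse to the field and the displacement -/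
theorem exists_pos {φ : ℝ → S → S} {X : S → E} {m M L : ℝ} (h : FD φ X m M L) :
    ∃ ρ₀ : ℝ, 0 < ρ₀ ∧ ∀ (G : S → S) (ρ r : ℝ), ρ ≤ ρ₀ → Nrm X G ρ r → (∀ x, G x ≠ x) →
      ∃ (Q : ℕ) (y : ℕ → S) (ε c : ℝ), 0 < Q ∧ y Q = y 0 ∧
        (∀ k, 0 < ⟪(y k : E), (y (k + 1) : E)⟫) ∧ 0 < ε ∧ ε ≤ 1 ∧ 0 < c ∧
        ∀ (k : ℕ) (x : S) (u s t : ℝ) (e : E), 0 ≤ u → u ≤ 1 → 0 ≤ s → 0 ≤ t →
          ‖(x : E) + u • ((G x : E) - x) - s • (y k : E) - t • (y (k + 1) : E)‖ ≤ ε →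
          ‖e‖ ≤ m / 100 → c ≤ ⟪cr (y k) (X x + e) ((G x : E) - x), (y (k + 1) : E)⟫ := by
  have hm := h.m_pos
  have hL := h.L_nonneg
  have hM : m ≤ M := (h.low pole).trans (h.up pole)
  have hLM : 0 < L + M := by linarith
  refine ⟨min (1 / 10) (m / (1000 * (L + M))), by positivity, fun G ρ r hρ hG hne => ?_⟩
  have hρ1 : ρ ≤ 1 / 10 := hρ.trans (min_le_left _ _)
  have hρ2 : ρ * (L + M) ≤ m / 1000 := by
    have := hρ.trans (min_le_right _ _)
    rw [le_div_iff₀ (by positivity)] at this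
    linarith
  have hρ0 : 0 < ρ := hG.r_pos.trans_le hG.r_le
  have hv1 : ∀ z : S, ‖(G z : E) - z‖ ≤ 1 / 10 := fun z => (hG.near z).trans (hG.r_le.trans hρ1)
  have hv0 : ∀ z : S, 0 < ‖(G z : E) - z‖ := fun z =>
    norm_pos_iff.2 (sub_ne_zero.2 fun e => hne z (Subtype.ext e))
  have hc : Continuous fun z : S => ‖(G z : E) - z‖ :=
    ((continuous_subtype_val.comp hG.cont).sub continuous_subtype_val).norm
  obtain ⟨z₀, -, hz₀⟩ := isCompact_univ.exists_isMinOn ⟨pole, mem_univ _⟩ hc.continuousOn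
  set w := ‖(G z₀ : E) - z₀‖ with hw
  have hw0 : 0 < w := hv0 z₀
  have hw1 : w ≤ 1 / 10 := hv1 z₀
  have hwm : ∀ z : S, w ≤ ‖(G z : E) - z‖ := fun z => hz₀ (mem_univ z)
  have hC : ∀ z : S, m * ‖(G z : E) - z‖ / 2 ≤ ‖cr z (X z) ((G z : E) - z)‖ := fun z =>
    cr_ge hm z (G z) (X z) (h.low z) (h.perp z) (hG.orth z) (by linarith [hv1 z])
  have hC0 : ∀ z : S, 0 < ‖cr z (X z) ((G z : E) - z)‖ := fun z =>
    lt_of_lt_of_le (by have := hv0 z; positivity) (hC z)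
  set n : S → E := fun z => ‖cr z (X z) ((G z : E) - z)‖⁻¹ • cr z (X z) ((G z : E) - z) with hn
  have h1 : ∀ z, ‖n z‖ = 1 := fun z => by
    simp only [hn]
    rw [norm_smul, norm_inv, norm_norm, inv_mul_cancel₀ (hC0 z).ne']
  have hp : ∀ z : S, ⟪(z : E), n z⟫ = 0 := fun z => by
    simp only [hn]
    rw [inner_smul_right, cr_a, mul_zero]
  have hCn : ∀ z : S, ⟪cr z (X z) ((G z : E) - z), n z⟫ = ‖cr z (X z) ((G z : E) - z)‖ := fun z => by
    simp only [hn]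
    rw [inner_smul_right, real_inner_self_eq_norm_sq]
    have := (hC0 z).ne'
    field_simp
  obtain ⟨κ, hκ0, hκ1, hκ2⟩ : ∃ κ : ℝ, 0 < κ ∧ κ ≤ 1 / 100 ∧ κ * (M + m) ≤ m / 1000 := by
    have hMm : 0 < M + m := by linarith
    refine ⟨m / (1000 * (M + m)), by positivity, ?_, le_of_eq (by field_simp)⟩
    rw [div_le_iff₀ (by positivity)]
    linarith
  obtain ⟨d, d0, dκ, dw⟩ : ∃ d : ℝ, 0 < d ∧ d ≤ κ ∧ d ≤ w / 100 :=
    ⟨min κ (w / 100), by positivity, min_le_left _ _, min_le_right _ _⟩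
  obtain ⟨Q, y, hQ, hper, hy⟩ := exists_chain (fun x => N ((x : E) + d • n x)) (κ * d) (by positivity)
  have s1 : ∀ k, ‖(y (k + 1) : E) - y k - d • n (y k)‖ ≤ 5 * κ * d := fun k => by
    have a1 := hy k
    have a2 := step n h1 hp d d0 (by linarith) (y k)
    have a3 : (y (k + 1) : E) - y k - d • n (y k) = ((y (k + 1) : E) - N ((y k : E) + d • n (y k)))
        + ((N ((y k : E) + d • n (y k)) : E) - y k - d • n (y k)) := by abel
    rw [a3]
    refine (norm_add_le _ _).trans ?_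
    nlinarith
  have s2 : ∀ k, ‖(y (k + 1) : E) - y k‖ ≤ 2 * d := fun k => by
    have a3 : (y (k + 1) : E) - y k = ((y (k + 1) : E) - y k - d • n (y k)) + d • n (y k) := by abel
    rw [a3]
    refine (norm_add_le _ _).trans ?_
    rw [norm_smul, h1, Real.norm_eq_abs, abs_of_pos d0, mul_one]
    nlinarith [s1 k]
  refine ⟨Q, fun k => y k, w / 100, d * m * w / 16, hQ, ?_, fun k => ?_, by positivity,
    by linarith, by positivity, fun k x u s t e hu0 hu1 hs ht hq he => ?_⟩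
  · simpa using hper 0
  · have a1 := inner_v (y k) (y (k + 1))
    have a2 := s2 k
    rw [inner_sub_left, real_inner_self_eq_norm_sq, norm_coe, real_inner_comm] at a1
    have a3 : ‖(y (k + 1) : E) - y k‖ ^ 2 ≤ 1 := pow_le_one₀ (norm_nonneg _) (by linarith)
    push_cast
    linarith
  · push_cast at hq ⊢
    set a : S := y k with ha
    set a' : S := y (k + 1) with ha'
    have t1 : ‖(a' : E) - a - d • n a‖ ≤ 5 * κ * d := s1 k
    set V := ‖(G x : E) - x‖ with hV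
    have V0 : 0 < V := hv0 x
    have Vw : w ≤ V := hwm x
    have Vr : V ≤ r := hG.near x
    have b1 : ‖(a : E) - x‖ ≤ 4 * V :=
      close x a a' _ u s t d (w / 100) hu0 hu1 hs ht (by linarith [hv1 x]) d0.le (by linarith)
        (by linarith) (s2 k) hq
    have b2 : ‖((G x : E) - x) - ((G a : E) - a)‖ ≤ 4 * ρ * V := by
      have c1 := hG.lip a x (by linarith)
      have c2 : ((G x : E) - x) - ((G a : E) - a) = -((G a : E) - G x - ((a : E) - x)) := by abel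
      rw [c2, norm_neg]
      nlinarith
    have b3 : V / 2 ≤ ‖(G a : E) - a‖ := by
      have c1 := norm_sub_norm_le ((G x : E) - x) ((G a : E) - a)
      nlinarith
    have b4 : ‖X x + e - X a‖ ≤ 4 * L * ρ + m / 100 := by
      have c1 := h.lip x a
      rw [norm_sub_rev (x : E)] at c1
      have c2 : X x + e - X a = (X x - X a) + e := by abel
      have c3 := norm_add_le (X x - X a) e
      have c4 : L * ‖(a : E) - x‖ ≤ L * (4 * ρ) :=
        mul_le_mul_of_nonneg_left (by linarith [hG.r_le]) hL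
      rw [c2]
      linarith
    have b5 : ‖cr a (X x + e) ((G x : E) - x) - cr a (X a) ((G a : E) - a)‖
        ≤ (m / 50 + m / 125) * V := by
      rw [cr_split]
      refine (norm_add_le _ _).trans ?_
      have c1 := cr_le a (X x + e - X a) ((G x : E) - x)
      have c2 := cr_le a (X a) (((G x : E) - x) - ((G a : E) - a))
      rw [norm_coe, one_mul] at c1 c2
      have c3 : ‖X x + e - X a‖ * V ≤ (4 * L * ρ + m / 100) * V :=
        mul_le_mul_of_nonneg_right b4 V0.le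
      have c4 : ‖X a‖ * ‖((G x : E) - x) - ((G a : E) - a)‖ ≤ M * (4 * ρ * V) :=
        mul_le_mul (h.up a) b2 (norm_nonneg _) (by linarith)
      have c5 : ρ * (L + M) * V ≤ m / 1000 * V := mul_le_mul_of_nonneg_right hρ2 V0.le
      nlinarith
    have b6 : ‖cr a (X x + e) ((G x : E) - x)‖ ≤ 2 * ((M + m) * V) := by
      have c1 := cr_le a (X x + e) ((G x : E) - x)
      rw [norm_coe, one_mul] at c1
      have c2 : ‖X x + e‖ ≤ M + m := by
        have := norm_add_le (X x) e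
        linarith [h.up x]
      have c3 : ‖X x + e‖ * V ≤ (M + m) * V := mul_le_mul_of_nonneg_right c2 V0.le
      linarith
    set C := cr a (X x + e) ((G x : E) - x) with hCd
    set C' := cr a (X a) ((G a : E) - a) with hC'
    have b7 : ⟪C, (a' : E)⟫ = d * (‖C'‖ + ⟪C - C', n a⟫) + ⟪C, (a' : E) - a - d • n a⟫ := by
      have c1 : ⟪C, (a : E)⟫ = 0 := by rw [real_inner_comm]; exact cr_a _ _ _
      have c2 : ⟪C', n a⟫ = ‖C'‖ := hCn a
      rw [inner_sub_right, inner_sub_right, inner_sub_left, inner_smul_right C (n a) d, c1, c2]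
      ring
    have b8 : -((m / 50 + m / 125) * V) ≤ ⟪C - C', n a⟫ := by
      have c1 := (abs_le.1 (abs_real_inner_le_norm (C - C') (n a))).1
      rw [h1, mul_one] at c1
      linarith
    have b9 : -(d * (m / 100 * V)) ≤ ⟪C, (a' : E) - a - d • n a⟫ := by
      have c1 := (abs_le.1 (abs_real_inner_le_norm C ((a' : E) - a - d • n a))).1
      have c2 : ‖C‖ * ‖(a' : E) - a - d • n a‖ ≤ 2 * ((M + m) * V) * (5 * κ * d) :=
        mul_le_mul b6 t1 (norm_nonneg _) ((norm_nonneg _).trans b6)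
      have c3 : κ * (M + m) * (d * V) ≤ m / 1000 * (d * V) :=
        mul_le_mul_of_nonneg_right hκ2 (by positivity)
      nlinarith
    have b10 : m * V / 4 ≤ ‖C'‖ := by
      have c1 := hC a
      have c2 : m * (V / 2) ≤ m * ‖(G a : E) - a‖ := mul_le_mul_of_nonneg_left b3 hm.le
      linarith
    have b11 : d * (m * V / 5) ≤ d * (‖C'‖ + ⟪C - C', n a⟫) := by
      refine mul_le_mul_of_nonneg_left ?_ d0.le
      have : 0 < m * V := by positivity
      linarith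
    have b12 : d * m * w ≤ d * m * V := mul_le_mul_of_nonneg_left Vw (by positivity)
    have b13 : 0 < d * m * V := by positivity
    rw [b7]
    linarith

end Pool.Agent.Lib.MP_399f8e_an.Dc
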