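import Pool.Agent.Lib.MP_399f8e_an.Dc.Corr2
import Pool.Agent.Lib.MP_399f8e_an.Dc.Form
import Pool.Agent.Lib.MP_399f8e_an.Dc.Pos
import Pool.Agent.Lib.MP_399f8e_an.Dc.Dini

open Set Filter Topology Metric
open scoped RealInnerProductSpace
open Pool.Agent.Lib.MP_399f8e_an.Rg Pool.Agent.Lib.MP_399f8e_an.Rg.CrossAux

noncomputable section

namespace Pool.Agent.Lib.MP_399f8e_an.Dc

variable {φ : ℝ → S → S}

theorem cont_orbit (hφ : IsFl φ) {f : S → ℝ} (hf : Continuous f) (x : S) :
    Continuous fun s : ℝ => f (φ s x) :=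
  hf.comp (hφ.cont.comp (continuous_id.prodMk continuous_const))

theorem orb_add' (hφ : IsFl φ) {f : S → ℝ} (hf : Continuous f) (x : S) (s t : ℝ) :
    orb φ f x (s + t) = orb φ f x s + orb φ f (φ s x) t := by
  have hc := cont_orbit hφ hf x
  have e : orb φ f (φ s x) t = ∫ u in s..s + t, f (φ u x) := by
    have h1 := intervalIntegral.integral_comp_add_right (a := 0) (b := t)
      (fun u => f (φ u x)) s
    rw [zero_add, add_comm t s] at h1
    rw [← h1]
    simp only [orb, hφ.add]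
  rw [e]
  exact (intervalIntegral.integral_add_adjacent_intervals (hc.intervalIntegrable _ _)
    (hc.intervalIntegrable _ _)).symm

theorem cont_orb (hφ : IsFl φ) {f : S → ℝ} (hf : Continuous f) (t : ℝ) :
    Continuous fun x => orb φ f x t :=
  intervalIntegral.continuous_parametric_intervalIntegral_of_continuous'
    (f := fun (x : S) (s : ℝ) => f (φ s x))
    (hf.comp (hφ.cont.comp (continuous_snd.prodMk continuous_fst))) 0 t

theorem abs_orb_le {f : S → ℝ} {K : ℝ} (hK : ∀ z, |f z| ≤ K) (x : S) (t : ℝ) :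
    |orb φ f x t| ≤ K * |t| := by
  simpa [orb] using intervalIntegral.norm_integral_le_of_norm_le_const (a := 0) (b := t)
    (f := fun s => f (φ s x)) (C := K) fun s _ => hK _

theorem bdd {f : S → ℝ} (hf : Continuous f) : ∃ K, ∀ z, |f z| ≤ K := by
  obtain ⟨K, hK⟩ := isCompact_univ.exists_bound_of_continuousOn hf.continuousOn
  exact ⟨K, fun z => hK z trivial⟩

/-- either an orbit is mapped to itself, or there is a definite flux between `x` and `h x` -/
theorem core {X : S → E} {m M L : ℝ} (hφ : FD φ X m M L) (ε : ℝ) (hε : 0 < ε) :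
    ∃ η : ℝ, 0 < η ∧ ∀ (h : S → S) (τ : S → ℝ), Continuous τ →
      (∀ t x, h (φ t x) = φ t (h x)) → (∀ x, ‖(φ (τ x) (h x) : E) - x‖ ≤ η) →
      (∀ x y, ‖((φ (τ x) (h x) : E) - x) - ((φ (τ y) (h y) : E) - y)‖ ≤ η * ‖(x : E) - y‖) →
      (∃ x θ, |θ| ≤ ε ∧ φ (τ x) (h x) = φ θ x) ∨
        ∃ (a b : S → ℝ) (C : ℝ), Continuous a ∧ Continuous b ∧ (∀ x, 0 ≤ b x) ∧ (∃ x, 0 < b x) ∧
          ∀ x t, 0 ≤ t → orb φ b x t ≤ orb φ a x t - orb φ a (h x) t + C := by
  have hm := hφ.m_pos
  have hM : 0 < M := hm.trans_le ((hφ.low pole).trans (hφ.up pole))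
  obtain ⟨ρ₀, hρ₀, hpos⟩ := exists_pos hφ
  obtain ⟨ρ, hρ, ρ1, ρ2, ρ3, -⟩ := SigmaAux.small4 hρ₀ (show 0 < m / (200 * M) by positivity)
    one_pos one_pos
  rw [le_div_iff₀ (by positivity)] at ρ2
  obtain ⟨η, hη, r, hcorr⟩ := exists_corr2 hφ ρ ε hρ hε
  refine ⟨η, hη, fun h τ hτ hc near lip => ?_⟩
  obtain ⟨σ, hσ, hσε, hN⟩ := hcorr (fun x => φ (τ x) (h x)) near lip
  set G : S → S := fun x => φ (σ x) (φ (τ x) (h x)) with hG
  by_cases hfix : ∃ x, G x = x
  · obtain ⟨x, hx⟩ := hfix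
    refine Or.inl ⟨x, -σ x, by rw [abs_neg]; exact hσε x, ?_⟩
    have h1 : φ (-σ x) (φ (σ x) (φ (τ x) (h x))) = φ (-σ x) x := congrArg (φ (-σ x)) hx
    rwa [← hφ.add (-σ x), neg_add_cancel, hφ.zero] at h1
  push Not at hfix
  right
  obtain ⟨Q, y, e, c, hQ, hper, hyy, he, he1, hc0, hcle⟩ := hpos G ρ r ρ1 hN hfix
  obtain ⟨A, F, hA, hFc, hF0, hFp, hFs, hdA⟩ := exists_form Q y hper hyy e he he1
  have hX : Continuous X := by
    refine (LipschitzWith.of_dist_le' (K := L) fun x y => ?_).continuous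
    rw [dist_eq_norm, Subtype.dist_eq, dist_eq_norm]
    exact hφ.lip x y
  have hGc : Continuous fun x => (G x : E) := continuous_subtype_val.comp hN.cont
  have hβ : Continuous fun q : S × ℝ => c * F 0 ((q.1 : E) + q.2 • ((G q.1 : E) - q.1)) :=
    continuous_const.mul ((hFc 0).comp ((continuous_subtype_val.comp continuous_fst).add
      (continuous_snd.smul ((hGc.comp continuous_fst).sub
        (continuous_subtype_val.comp continuous_fst)))))
  have ha : Continuous fun z : S => ⟪A z, X z⟫ :=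
    (hA.continuous.comp continuous_subtype_val).inner hX
  have hT : Continuous fun x => σ x + τ x := hσ.add hτ
  have key := strip hφ hN (by linarith) ρ3 h (fun x => σ x + τ x) hT hc
    (fun x => (hφ.add _ _ _).symm) hA (fun x u => c * F 0 ((x : E) + u • ((G x : E) - x))) hβ
    fun x u e' h0 h1 he' => by
      have hp : ‖(x : E) + u • ((G x : E) - x)‖ ≤ 1 := by
        have e1 : (x : E) + u • ((G x : E) - x) = (1 - u) • (x : E) + u • (G x : E) := by module
        rw [e1]
        refine (norm_add_le _ _).trans ?_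
        rw [norm_smul, norm_smul, norm_coe, norm_coe, Real.norm_of_nonneg h0,
          Real.norm_of_nonneg (by linarith)]
        linarith
      rw [hdA _ _ _ hp]
      have hk : ∀ k, c * F k ((x : E) + u • ((G x : E) - x)) ≤
          F k ((x : E) + u • ((G x : E) - x)) *
            ⟪cr (y k) (X x + e') ((G x : E) - x), (y (k + 1) : E)⟫ := by
        intro k
        by_cases h2 : F k ((x : E) + u • ((G x : E) - x)) = 0
        · rw [h2, mul_zero, zero_mul]
        · obtain ⟨s, t, hs, ht, hst⟩ := hFs k _ h2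
          rw [mul_comm]
          exact mul_le_mul_of_nonneg_left (hcle k x u s t e' h0 h1 hs ht hst he') (hF0 _ _)
      refine le_trans ?_ (Finset.sum_le_sum fun k _ => hk k)
      exact Finset.single_le_sum (f := fun k => c * F k ((x : E) + u • ((G x : E) - x)))
        (fun k _ => mul_nonneg hc0.le (hF0 _ _)) (Finset.mem_range.2 hQ)
  obtain ⟨K₁, hK₁⟩ := bdd (f := fun z : S => seg A z (G z))
    ((continuous_seg hA.continuous).comp (continuous_subtype_val.prodMk hGc))
  obtain ⟨K₂, hK₂⟩ := bdd ha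
  obtain ⟨K₃, hK₃⟩ := bdd hT
  have hK₂0 : 0 ≤ K₂ := (abs_nonneg _).trans (hK₂ pole)
  refine ⟨fun z => ⟪A z, X z⟫,
    fun z => ∫ u in (0 : ℝ)..1, c * F 0 ((z : E) + u • ((G z : E) - z)), 2 * K₁ + 2 * (K₂ * K₃), ha,
    intervalIntegral.continuous_parametric_intervalIntegral_of_continuous'
      (f := fun (z : S) (u : ℝ) => c * F 0 ((z : E) + u • ((G z : E) - z))) hβ 0 1,
    fun z => intervalIntegral.integral_nonneg zero_le_one fun u _ => mul_nonneg hc0.le (hF0 _ _),
    ⟨y 0, ?_⟩, fun x t ht => ?_⟩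
  · refine intervalIntegral.integral_pos one_pos
      (hβ.comp (continuous_const.prodMk continuous_id)).continuousOn
      (fun u _ => mul_nonneg hc0.le (hF0 _ _)) ⟨0, left_mem_Icc.2 zero_le_one, ?_⟩
    simpa using mul_pos hc0 hFp
  · have k1 := key x t ht
    rw [orb_add' hφ.toIsFl ha] at k1
    have hb : ∀ z w : S, |orb φ (fun z : S => ⟪A z, X z⟫) z (σ w + τ w)| ≤ K₂ * K₃ := fun z w =>
      (abs_orb_le hK₂ z _).trans (mul_le_mul_of_nonneg_left (hK₃ w) hK₂0)
    linarith [abs_le.1 (hK₁ x), abs_le.1 (hK₁ (φ t x)), abs_le.1 (hb (h x) x),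
      abs_le.1 (hb (φ t (h x)) (φ t x))]

end Pool.Agent.Lib.MP_399f8e_an.Dc
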