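import Pool.Agent.Lib.MP_399f8e_an.Rg.Cross

open Set Filter Topology Metric
open scoped RealInnerProductSpace
open Pool.Agent.Lib.MP_399f8e_an.Rg Pool.Agent.Lib.MP_399f8e_an.Rg.CrossAux

noncomputable section

namespace Pool.Agent.Lib.MP_399f8e_an.Dc

/-- the exterior derivative of the one-form `⟪A, ·⟫` -/
def dA (A : E → E) (p a b : E) : ℝ := ⟪fderiv ℝ A p a, b⟫ - ⟪fderiv ℝ A p b, a⟫

/-- the integral of the one-form `⟪A, ·⟫` over the segment from `a` to `b` -/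
def seg (A : E → E) (a b : E) : ℝ := ∫ r in (0 : ℝ)..1, ⟪A (a + r • (b - a)), b - a⟫

/-- the integral of a function along an orbit -/
def orb (φ : ℝ → S → S) (f : S → ℝ) (x : S) (t : ℝ) : ℝ := ∫ s in (0 : ℝ)..t, f (φ s x)

/-- a map close to the identity whose displacement is orthogonal to the field -/
structure Nrm (X : S → E) (G : S → S) (ρ r : ℝ) : Prop where
  cont : Continuous G
  orth : ∀ x, ⟪(G x : E) - x, X x⟫ = 0
  near : ∀ x, ‖(G x : E) - x‖ ≤ r
  r_pos : 0 < r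
  r_le : r ≤ ρ
  lip : ∀ z z' : S, ‖(z : E) - z'‖ ≤ 4 * r →
    ‖(G z : E) - G z' - ((z : E) - z')‖ ≤ ρ * ‖(z : E) - z'‖

end Pool.Agent.Lib.MP_399f8e_an.Dc
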