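import Pool.Agent.Lib.MP_399f8e_an.Rg.Sigma
import Pool.Agent.Lib.MP_399f8e_an.Dc.Defs

open Set Filter Topology Metric
open scoped RealInnerProductSpace Manifold ContDiff
open Pool.Agent.Lib.MP_399f8e_an.Rg

noncomputable section

namespace Pool.Agent.Lib.MP_399f8e_an.Dc

open SigmaAux in
/-- the time correction (the proof of `Rg.exists_corr`, for an arbitrary map close to the identity) -/
theorem exists_corr2 {φ : ℝ → S → S} {X : S → E} {m M L : ℝ} (h : FD φ X m M L) (ρ₀ ε₀ : ℝ)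
    (hρ₀ : 0 < ρ₀) (hε₀ : 0 < ε₀) : ∃ η : ℝ, 0 < η ∧ ∃ r : ℝ, ∀ g : S → S,
      (∀ x, ‖(g x : E) - x‖ ≤ η) →
      (∀ x y, ‖((g x : E) - x) - ((g y : E) - y)‖ ≤ η * ‖(x : E) - y‖) →
      ∃ σ : S → ℝ, Continuous σ ∧ (∀ x, |σ x| ≤ ε₀) ∧ Nrm X (fun x => φ (σ x) (g x)) ρ₀ r := by
  obtain ⟨ρ, hρ, hρe⟩ : ∃ ρ : ℝ, 0 < ρ ∧ ρ₀ = 2 * ρ := ⟨ρ₀ / 2, by positivity, by ring⟩
  have hm := h.m_pos
  have hL := h.L_nonneg
  have hM : 0 < M := hm.trans_le ((h.low pole).trans (h.up pole))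
  obtain ⟨r₁, hr₁, e₁⟩ : ∃ r₁ : ℝ, 0 < r₁ ∧ (M + 1) * r₁ = ρ :=
    ⟨ρ / (M + 1), by positivity, by field_simp⟩
  obtain ⟨κ, hκ, κ1, κ2, κ3, κ4⟩ := small4 (one_pos) (show 0 < ρ / 4 by positivity)
    (show 0 < m ^ 2 / (2 * M) by positivity) (show 0 < r₁ * m ^ 2 / (12 * M) by positivity)
  rw [le_div_iff₀ (by positivity)] at κ3 κ4
  obtain ⟨δ, hδ, hU⟩ := h.unif κ hκ
  obtain ⟨r₂, hr₂, r21, r22, r23, -⟩ := small4 hρ
    (show 0 < r₁ * m ^ 2 / (6 * (L + 1)) by positivity) (show 0 < δ / 8 by positivity) one_pos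
  rw [le_div_iff₀ (by positivity)] at r22
  obtain ⟨t₀, ht₀, t1, t2, t3, -⟩ := small4 hδ hε₀
    (show 0 < r₂ / (2 * (M + 1)) by positivity) one_pos
  rw [le_div_iff₀ (by positivity)] at t3
  obtain ⟨η₁, hη₁, η1, η2, η3, η4⟩ := small4 (show 0 < r₂ / 2 by positivity)
    (show 0 < δ / 2 by positivity) (show 0 < t₀ * m ^ 2 / (2 * M) by positivity)
    (show 0 < r₁ * m ^ 2 / (6 * M) by positivity)
  obtain ⟨η, hη, η5, η6⟩ := small2 hη₁ one_pos
  rw [le_div_iff₀ (by positivity)] at η3 η4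
  have η3' : η * (2 * M) ≤ t₀ * m ^ 2 := (mul_le_mul_of_nonneg_right η5 (by positivity)).trans η3
  have η4' : η * (6 * M) ≤ r₁ * m ^ 2 := (mul_le_mul_of_nonneg_right η5 (by positivity)).trans η4
  refine ⟨η, hη, r₂, fun g gnear glip => ?_⟩
  have hU' : ∀ (x z z' : S) (t t' : ℝ), ‖(g z : E) - x‖ ≤ δ → ‖(g z' : E) - x‖ ≤ δ →
      |t| ≤ δ → |t'| ≤ δ →
      ‖(φ (t) (g z) : E) - φ (t') (g z') - ((g z : E) - g z') - (t - t') • X x‖
        ≤ κ * (‖(g z : E) - g z'‖ + |t - t'|) := fun x z z' t t' a1 a2 a3 a4 => by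
    have := hU x _ _ t t' a1 a2 a3 a4
    rwa [hext_coe, hext_coe] at this
  have hsq : ∀ x, m ^ 2 ≤ ⟪X x, X x⟫ := fun x => by
    rw [real_inner_self_eq_norm_sq]
    exact pow_le_pow_left₀ hm.le (h.low x) 2
  have hin : ∀ (v : E) (x : S) (b : ℝ), ‖v‖ ≤ b → |⟪v, X x⟫| ≤ b * M := fun v x b hb =>
    (abs_real_inner_le_norm _ _).trans
      (mul_le_mul hb (h.up x) (norm_nonneg _) ((norm_nonneg _).trans hb))
  have hone : ∀ (x : S) (t : ℝ), |t| ≤ t₀ →
      ‖(φ (t) (g x) : E) - g x - t • X x‖ ≤ κ * |t| := fun x t ht => by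
    have := hU' x x x t 0 (by linarith [gnear x]) (by linarith [gnear x]) (by linarith)
      (by simp [hδ.le])
    simpa [h.zero] using this
  have hex : ∀ x : S, ∃ t, |t| ≤ t₀ ∧ ⟪(φ (t) (g x) : E) - x, X x⟫ = 0 := fun x => by
    have hc : Continuous fun t : ℝ => ⟪(φ (t) (g x) : E) - x, X x⟫ :=
      ((continuous_subtype_val.comp (h.cont.comp
        (continuous_id.prodMk continuous_const))).sub
        continuous_const).inner continuous_const
    have e : ∀ t : ℝ, ⟪(φ (t) (g x) : E) - x, X x⟫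
        = ⟪(φ (t) (g x) : E) - g x - t • X x, X x⟫ + ⟪(g x : E) - x, X x⟫
          + t * ⟪X x, X x⟫ := fun t => by
      simp only [inner_sub_left, real_inner_smul_left]; ring
    have b0 := abs_le.1 (hin _ x _ (gnear x))
    have b1 := abs_le.1 (hin _ x _ (hone x t₀ (by rw [abs_of_pos ht₀])))
    have b2 := abs_le.1 (hin _ x _ (hone x (-t₀) (by rw [abs_neg, abs_of_pos ht₀])))
    rw [abs_of_pos ht₀] at b1
    rw [abs_neg, abs_of_pos ht₀] at b2
    have b3 := mul_le_mul_of_nonneg_left (hsq x) ht₀.le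
    have b4 := mul_le_mul_of_nonneg_left κ3 ht₀.le
    obtain ⟨t, ht, h0⟩ := intermediate_value_Icc (show -t₀ ≤ t₀ by linarith) hc.continuousOn
      (show (0 : ℝ) ∈ Icc _ _ from ⟨by rw [e]; nlinarith, by rw [e]; nlinarith⟩)
    exact ⟨t, abs_le.2 ht, h0⟩
  choose σ hσ ho using hex
  have hnear : ∀ x, ‖(φ (σ x) (g x) : E) - x‖ ≤ r₂ := fun x => by
    have e : (φ (σ x) (g x) : E) - x = ((φ (σ x) (g x) : E) - g x - σ x • X x)
        + ((g x : E) - x) + σ x • X x := by abel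
    rw [e]
    refine norm_add₃_le.trans ?_
    rw [norm_smul, Real.norm_eq_abs]
    have b1 := hone x _ (hσ x)
    have b2 : |σ x| * ‖X x‖ ≤ t₀ * M := mul_le_mul (hσ x) (h.up x) (norm_nonneg _) ht₀.le
    have b3 : κ * |σ x| ≤ 1 * t₀ := mul_le_mul κ1 (hσ x) (abs_nonneg _) zero_le_one
    linarith [gnear x]
  have hgg : ∀ z z' : S, ‖(g z : E) - g z' - ((z : E) - z')‖ ≤ η * ‖(z : E) - z'‖ :=
    fun z z' => le_of_eq_of_le (by congr 1; abel) (glip z z')
  have hgg' : ∀ z z' : S, ‖(g z : E) - g z'‖ ≤ 2 * ‖(z : E) - z'‖ := fun z z' => by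
    have e : (g z : E) - g z'
        = ((g z : E) - g z' - ((z : E) - z')) + ((z : E) - z') := by abel
    rw [e]
    refine (norm_add_le _ _).trans ?_
    have := mul_le_mul_of_nonneg_right η6 (norm_nonneg ((z : E) - z'))
    linarith [hgg z z']
  have hgx : ∀ z x : S, ‖(z : E) - x‖ ≤ δ / 2 → ‖(g z : E) - x‖ ≤ δ := fun z x hz => by
    have e : (g z : E) - x = ((g z : E) - z) + ((z : E) - x) := by abel
    rw [e]
    refine (norm_add_le _ _).trans ?_
    linarith [gnear z]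
  have hlip : ∀ x x' : S, ‖(x' : E) - x‖ ≤ δ / 2 → |σ x' - σ x| ≤ r₁ * ‖(x' : E) - x‖ := by
    intro x x' hx
    have b1 := hin _ x _ (hU' x x' x (σ x') (σ x) (hgx x' x hx) (hgx x x (by simp; positivity))
      ((hσ x').trans t1) ((hσ x).trans t1))
    have b2 := hin _ x _ (hgg x' x)
    have b3 : |⟪(φ (σ x') (g x') : E) - x', X x - X x'⟫| ≤ r₂ * (L * ‖(x' : E) - x‖) := by
      refine (abs_real_inner_le_norm _ _).trans (mul_le_mul (hnear x') ?_ (norm_nonneg _) hr₂.le)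
      rw [norm_sub_rev (x' : E)]
      exact h.lip x x'
    have e : (σ x' - σ x) * ⟪X x, X x⟫
        = ⟪(φ (σ x') (g x') : E) - x', X x - X x'⟫
          - ⟪(g x' : E) - g x - ((x' : E) - x), X x⟫
          - ⟪(φ (σ x') (g x') : E) - φ (σ x) (g x) - ((g x' : E) - g x)
            - (σ x' - σ x) • X x, X x⟫ := by
      have o1 := ho x
      have o2 := ho x'
      rw [inner_sub_right, o2]
      simp only [inner_sub_left, real_inner_smul_left] at o1 ⊢
      linarith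
    have b4 : |σ x' - σ x| * m ^ 2 ≤ |(σ x' - σ x) * ⟪X x, X x⟫| := by
      rw [abs_mul]
      exact mul_le_mul_of_nonneg_left ((hsq x).trans (le_abs_self _)) (abs_nonneg _)
    rw [e] at b4
    have b5 := b4.trans ((abs_sub _ _).trans (add_le_add ((abs_sub _ _).trans
      (add_le_add b3 b2)) b1))
    have b6 := hgg' x' x
    set D := ‖(x' : E) - x‖
    have hD : 0 ≤ D := norm_nonneg _
    set A := |σ x' - σ x|
    have hA : 0 ≤ A := abs_nonneg _
    have c1 : r₂ * (L * D) ≤ r₁ * m ^ 2 / 6 * D := by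
      have : r₂ * L ≤ r₁ * m ^ 2 / 6 := by nlinarith
      nlinarith
    have c2 : η * D * M ≤ r₁ * m ^ 2 / 6 * D := by nlinarith
    have c3 : κ * (‖(g x' : E) - g x‖ + A) * M
        ≤ r₁ * m ^ 2 / 6 * D + A * m ^ 2 / 2 := by
      have c4 : κ * M * ‖(g x' : E) - g x‖ ≤ κ * M * (2 * D) :=
        mul_le_mul_of_nonneg_left b6 (by positivity)
      nlinarith [mul_le_mul_of_nonneg_right κ3 hA, mul_le_mul_of_nonneg_right κ4 hD]
    have c5 : A * m ^ 2 ≤ r₁ * D * m ^ 2 := by linarith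
    exact le_of_mul_le_mul_right c5 (by positivity)
  have hσc : Continuous σ := by
    refine continuous_iff_continuousAt.2 fun x => Metric.continuousAt_iff.2 fun ε hε => ?_
    obtain ⟨e, he, e1, e2⟩ := small2 (show 0 < δ / 2 by positivity) (show 0 < ε / r₁ by positivity)
    refine ⟨e, he, fun x' hx' => ?_⟩
    rw [Subtype.dist_eq, dist_eq_norm] at hx'
    rw [Real.dist_eq]
    refine (hlip x x' (by linarith)).trans_lt ?_
    rw [mul_comm, ← lt_div_iff₀ hr₁]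
    linarith
  have hgc : Continuous g := by
    refine (LipschitzWith.of_dist_le' (K := 2) fun x y => ?_).continuous
    rw [Subtype.dist_eq, Subtype.dist_eq, dist_eq_norm, dist_eq_norm]
    exact hgg' x y
  refine ⟨σ, hσc, fun x => (hσ x).trans t2, h.cont.comp (hσc.prodMk hgc), ho, hnear, hr₂,
    by linarith, fun z z' hz => ?_⟩
  have b0 : ‖(z : E) - z'‖ ≤ δ / 2 := by linarith
  have b1 := hU' z' z z' (σ z) (σ z') (hgx z z' b0) (hgx z' z' (by simp; positivity))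
    ((hσ z).trans t1) ((hσ z').trans t1)
  have b2 := hlip z' z b0
  have e : (φ (σ z) (g z) : E) - φ (σ z') (g z') - ((z : E) - z')
      = ((φ (σ z) (g z) : E) - φ (σ z') (g z') - ((g z : E) - g z')
          - (σ z - σ z') • X z')
        + ((g z : E) - g z' - ((z : E) - z')) + (σ z - σ z') • X z' := by abel
  rw [e]
  refine norm_add₃_le.trans ?_
  rw [norm_smul, Real.norm_eq_abs]
  have b3 := hgg z z'
  have b4 := mul_le_mul_of_nonneg_left (hgg' z z') hκ.le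
  have b5 : |σ z - σ z'| * ‖X z'‖ ≤ |σ z - σ z'| * M :=
    mul_le_mul_of_nonneg_left (h.up z') (abs_nonneg _)
  have b6 : κ * |σ z - σ z'| ≤ 1 * |σ z - σ z'| := mul_le_mul_of_nonneg_right κ1 (abs_nonneg _)
  have b7 := mul_le_mul_of_nonneg_left b2 (show 0 ≤ M + 1 by positivity)
  rw [← mul_assoc, e₁] at b7
  have b8 := mul_le_mul_of_nonneg_right κ2 (norm_nonneg ((z : E) - z'))
  have b9 := mul_le_mul_of_nonneg_right (show η ≤ ρ / 2 by linarith) (norm_nonneg ((z : E) - z'))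
  rw [hρe]
  nlinarith

end Pool.Agent.Lib.MP_399f8e_an.Dc
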