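import Pool.Agent.Lib.MP_399f8e_an.Rg.Flow

open Set Filter Topology Metric
open scoped RealInnerProductSpace Manifold ContDiff
open Pool.Agent.Lib.MP_399f8e_an.Rg

noncomputable section

namespace Pool.Agent.Lib.MP_399f8e_an.Dc

open FlowAux in
/-- the vector field of a flow without fixed points (the proof of `Rg.exists_FD`, with the weaker hypothesis) -/
theorem exists_FD2 [Fact (Module.finrank ℝ E = 3 + 1)] (φ : ℝ → S → S)
    (hs : ContMDiff (𝓘(ℝ, ℝ).prod (𝓡 3)) (𝓡 3) 2 fun p : ℝ × S => φ p.1 p.2)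
    (h0 : ∀ x, φ 0 x = x) (hadd : ∀ s t x, φ (s + t) x = φ s (φ t x))
    (hfix : ∀ x, ∃ t, φ t x ≠ x) : ∃ (X : S → E) (m M L : ℝ), FD φ X m M L := by
  obtain ⟨F, hF⟩ : ∃ F : ℝ × E → E, F = fun q => hext φ q.1 q.2 := ⟨_, rfl⟩
  have hC : ∀ p : ℝ × E, p.2 ≠ 0 → ContDiffAt ℝ 2 F p := fun p hp => hF ▸ contDiffAt_hext hs hp
  have hD : ∀ p : ℝ × E, p.2 ≠ 0 → HasFDerivAt F (fderiv ℝ F p) p := fun p hp =>
    ((hC p hp).differentiableAt (by norm_num)).hasFDerivAt
  have hD1 : ∀ p : ℝ × E, p.2 ≠ 0 → ContDiffAt ℝ 1 (fderiv ℝ F) p := fun p hp =>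
    (hC p hp).fderiv_right (by norm_num)
  have Fc : ∀ t (x : S), F (t, x) = φ t x := fun t x => by rw [hF]; exact hext_coe φ t x
  have F0 : ∀ y, F (0, y) = y := fun y => by simp only [hF, hext, h0, norm_smul_N]
  obtain ⟨G, hG⟩ : ∃ G : E → E, G = fun y => fderiv ℝ F (0, y) (1, 0) := ⟨_, rfl⟩
  have lin : ∀ (x : S) (t : ℝ) (w : E), fderiv ℝ F (0, x) (t, w) = w + t • G x := by
    intro x t w
    have h1 := (hD (0, x) (coe_ne x)).comp (x : E) (hasFDerivAt_prodMk_right (0 : ℝ) (x : E))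
    have h2 : F ∘ (fun y : E => ((0 : ℝ), y)) = id := funext F0
    rw [h2] at h1
    have h3 : fderiv ℝ F (0, x) (0, w) = w :=
      congrArg (fun A : E →L[ℝ] E => A w) (h1.unique (hasFDerivAt_id _))
    have h4 : ((t, w) : ℝ × E) = (0, w) + t • ((1 : ℝ), (0 : E)) := by simp
    rw [h4, map_add, map_smul, h3, hG]
  have der : ∀ x : S, HasDerivAt (fun t : ℝ => F (t, x)) (G x) 0 := fun x => by
    rw [hG]
    exact (hD (0, x) (coe_ne x)).comp_hasDerivAt (0 : ℝ)
      ((hasDerivAt_id (0 : ℝ)).prodMk (hasDerivAt_const (0 : ℝ) (x : E)))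
  have ne : ∀ x : S, G x ≠ 0 := by
    intro x hx
    have h1 : ∀ t, HasDerivAt (fun s : ℝ => F (s, x)) 0 t := fun t => by
      have h2 := (hasDerivAt_const (0 : ℝ) t).prodMk (hx ▸ der x)
      have h3 := HasFDerivAt.comp_hasDerivAt (l := F) (0 : ℝ)
        (by rw [F0]; exact hD (t, x) (coe_ne x)) h2
      have h4 : HasDerivAt (fun h : ℝ => F (t + h, x)) 0 (t - t) := by
        have h5 : (F ∘ fun h : ℝ => (t, F (h, x))) = fun h : ℝ => F (t + h, x) := funext fun h => by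
          simp only [Function.comp, Fc, hadd]
        rwa [h5, Prod.mk_zero_zero, map_zero, ← sub_self t] at h3
      simpa using h4.comp_sub_const t t
    obtain ⟨t₁, ht₁⟩ := hfix x
    have := is_const_of_deriv_eq_zero (fun t => (h1 t).differentiableAt) (fun t => (h1 t).deriv) t₁ 0
    rw [Fc, Fc, h0] at this
    exact ht₁ (Subtype.ext this)
  have hG1 : ∀ y : E, y ≠ 0 → ContDiffAt ℝ 1 G y := fun y hy => by
    rw [hG]
    exact ((hD1 (0, y) hy).comp y (contDiffAt_const.prodMk contDiffAt_id)).clm_apply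
      contDiffAt_const
  obtain ⟨L, hL⟩ : ∃ L, LipschitzOnWith L G (sphere (0 : E) 1) :=
    LocallyLipschitzOn.exists_lipschitzOnWith_of_compact (isCompact_sphere 0 1) fun y hy => by
      obtain ⟨K, t, ht, hK⟩ := (hG1 y (coe_ne ⟨y, hy⟩)).exists_lipschitzOnWith
      exact ⟨K, t, mem_nhdsWithin_of_mem_nhds ht, hK⟩
  have hne : (sphere (0 : E) 1).Nonempty := ⟨pole, pole.2⟩
  obtain ⟨a, ha, hm⟩ := (isCompact_sphere (0 : E) 1).exists_isMinOn hne hL.continuousOn.norm
  obtain ⟨b, -, hM⟩ := (isCompact_sphere (0 : E) 1).exists_isMaxOn hne hL.continuousOn.norm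
  refine ⟨fun x => G x, ‖G a‖, ‖G b‖, L, ⟨hs.continuous, h0, hadd⟩, fun x => ?_,
    norm_pos_iff.2 (ne ⟨a, ha⟩), fun x => hm x.2, fun x => hM x.2, L.2,
    fun x y => hL.norm_sub_le x.2 y.2, fun κ hκ => ?_⟩
  · have h1 := (der x).inner ℝ (der x)
    have h2 : (fun t : ℝ => ⟪F (t, x), F (t, x)⟫) = fun _ => 1 := funext fun t => by
      rw [Fc, real_inner_self_eq_norm_sq, norm_coe, one_pow]
    rw [h2, F0, real_inner_comm (x : E) (G x)] at h1
    linarith [h1.unique (hasDerivAt_const _ _)]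
  · have hK : IsCompact (({0} : Set ℝ) ×ˢ sphere (0 : E) 1) :=
      isCompact_singleton.prod (isCompact_sphere 0 1)
    obtain ⟨δ, hδ, h1⟩ := Metric.mem_uniformity_dist.1
      (hK.uniformContinuousAt_of_continuousAt (fderiv ℝ F)
        (fun p hp => (hD1 p (coe_ne ⟨p.2, hp.2⟩)).continuousAt) (Metric.dist_mem_uniformity hκ))
    refine ⟨min (δ / 2) (1 / 2), by positivity, fun x y y' t t' hy hy' ht ht' => ?_⟩
    have mem : ∀ (y : E) (t : ℝ), ‖y - x‖ ≤ min (δ / 2) (1 / 2) → |t| ≤ min (δ / 2) (1 / 2) →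
        (t, y) ∈ closedBall ((0 : ℝ), (x : E)) (min (δ / 2) (1 / 2)) := fun y t hy ht => by
      rw [mem_closedBall, Prod.dist_eq, dist_eq_norm y, Real.dist_0_eq_abs]
      exact max_le ht hy
    have key := (convex_closedBall ((0 : ℝ), (x : E))
      (min (δ / 2) (1 / 2))).norm_image_sub_le_of_norm_hasFDerivWithin_le' (f := F)
      (f' := fderiv ℝ F) (φ := fderiv ℝ F (0, x)) (C := κ)
      (fun q hq => (hD q (ne_zero_of_near (x := x) (by
        have h2 : dist q.2 (x : E) ≤ dist q (0, x) := le_max_right _ _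
        rw [← dist_eq_norm]
        linarith [mem_closedBall.1 hq, min_le_right (δ / 2) (1 / 2)]))).hasFDerivWithinAt)
      (fun q hq => by
        have h2 : dist ((0 : ℝ), (x : E)) q < δ := by
          rw [dist_comm]
          linarith [mem_closedBall.1 hq, min_le_left (δ / 2) (1 / 2)]
        have h3 : dist (fderiv ℝ F (0, x)) (fderiv ℝ F q) < κ := h1 h2 ⟨rfl, x.2⟩
        rw [dist_comm, dist_eq_norm] at h3
        exact h3.le) (mem y' t' hy' ht') (mem y t hy ht)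
    rw [Prod.mk_sub_mk, lin, ← sub_sub, hF] at key
    refine key.trans (mul_le_mul_of_nonneg_left (max_le ?_ ?_) hκ.le)
    · exact le_add_of_nonneg_left (norm_nonneg _)
    · exact le_add_of_nonneg_right (abs_nonneg _)


end Pool.Agent.Lib.MP_399f8e_an.Dc
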