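import Pool.Agent.Lib.MP_399f8e_an.Dc.Core

open Set Filter Topology Metric MeasureTheory
open scoped RealInnerProductSpace
open Pool.Agent.Lib.MP_399f8e_an.Rg

noncomputable section

namespace Pool.Agent.Lib.MP_399f8e_an.Dc

variable {φ : ℝ → S → S}

theorem orb_nonneg {b : S → ℝ} (h0 : ∀ x, 0 ≤ b x) (x : S) {t : ℝ} (ht : 0 ≤ t) :
    0 ≤ orb φ b x t :=
  intervalIntegral.integral_nonneg ht fun _ _ => h0 _

/-- for a minimal flow a nonzero nonnegative function has uniformly large orbit integrals -/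
theorem gain (hφ : IsFl φ) (hmin : ∀ x, Dense (range fun t : ℝ => φ t x)) {b : S → ℝ}
    (hb : Continuous b) (h0 : ∀ x, 0 ≤ b x) (hp : ∃ x, 0 < b x) (C : ℝ) :
    ∃ t, 0 ≤ t ∧ ∀ x, C < orb φ b x t := by
  have hU : ∀ x, ∃ n : ℕ, 0 < orb φ b (φ (-(n + 1)) x) (2 * (n + 1)) := by
    intro x
    obtain ⟨_, ⟨t, rfl⟩, ht⟩ := (hmin x).exists_mem_open (isOpen_lt continuous_const hb) hp
    obtain ⟨n, hn⟩ := exists_nat_ge |t|
    have hn0 : (0 : ℝ) ≤ n := Nat.cast_nonneg n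
    refine ⟨n, intervalIntegral.integral_pos (by positivity)
      (cont_orbit hφ hb _).continuousOn (fun s _ => h0 _) ⟨t + (n + 1), ?_, ?_⟩⟩
    · constructor <;> linarith [abs_le.1 hn]
    · rw [← hφ.add, add_neg_cancel_right]
      exact ht
  have hc : ∀ n : ℕ, Continuous fun x => orb φ b (φ (-(n + 1)) x) (2 * (n + 1)) := fun n =>
    (cont_orb hφ hb _).comp (hφ.cont.comp (continuous_const.prodMk continuous_id))
  have hmono : ∀ (x : S) (n n' : ℕ), n ≤ n' → orb φ b (φ (-(n + 1)) x) (2 * (n + 1)) ≤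
      orb φ b (φ (-(n' + 1)) x) (2 * (n' + 1)) := by
    intro x n n' h
    have h1 : (0 : ℝ) ≤ (n' : ℝ) - n := by rw [sub_nonneg]; exact_mod_cast h
    have e : (2 * (n' + 1) : ℝ) = (n' - n) + (2 * (n + 1) + (n' - n)) := by ring
    have e' : (n' : ℝ) - n + -(n' + 1) = -(n + 1) := by ring
    rw [e, orb_add' hφ hb, ← hφ.add, e', orb_add' hφ hb]
    linarith [orb_nonneg (φ := φ) h0 (φ (-(n' + 1)) x) h1,
      orb_nonneg (φ := φ) h0 (φ (2 * (n + 1)) (φ (-(n + 1)) x)) h1]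
  obtain ⟨s, hs⟩ := isCompact_univ.elim_finite_subcover
    (fun n : ℕ => {x : S | 0 < orb φ b (φ (-(n + 1)) x) (2 * (n + 1))})
    (fun n => isOpen_lt continuous_const (hc n)) fun x _ => mem_iUnion.2 (hU x)
  set n := s.sup id with hn
  have hall : ∀ x, 0 < orb φ b (φ (-(n + 1)) x) (2 * (n + 1)) := fun x => by
    obtain ⟨j, hj, hx⟩ := mem_iUnion₂.1 (hs (mem_univ x))
    exact lt_of_lt_of_le hx (hmono x j n (Finset.le_sup (f := id) hj))
  have hall' : ∀ x, 0 < orb φ b x (2 * (n + 1)) := fun x => by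
    have := hall (φ (n + 1) x)
    rwa [← hφ.add, neg_add_cancel, hφ.zero] at this
  obtain ⟨x₀, -, hx₀⟩ := isCompact_univ.exists_isMinOn ⟨pole, trivial⟩
    (cont_orb hφ hb (2 * (n + 1))).continuousOn
  have hk : ∀ (k : ℕ) (x : S), k * orb φ b x₀ (2 * (n + 1)) ≤ orb φ b x (k * (2 * (n + 1))) := by
    intro k
    induction k with
    | zero => intro x; simp [orb]
    | succ k ih =>
      intro x
      have h1 : orb φ b x₀ (2 * (n + 1)) ≤ orb φ b (φ (k * (2 * (n + 1))) x) (2 * (n + 1)) :=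
        hx₀ (mem_univ _)
      push_cast
      rw [add_mul, add_mul, one_mul, one_mul, orb_add' hφ hb]
      linarith [ih x]
  obtain ⟨k, hk'⟩ := exists_nat_gt (C / orb φ b x₀ (2 * (n + 1)))
  rw [div_lt_iff₀ (hall' x₀)] at hk'
  exact ⟨k * (2 * (n + 1)), by positivity, fun x => hk'.trans_le (hk k x)⟩

theorem no_flux_min (hφ : IsFl φ) (hmin : ∀ x, Dense (range fun t : ℝ => φ t x)) (h : S → S)
    {a b : S → ℝ} {C : ℝ} (ha : Continuous a) (hb : Continuous b) (h0 : ∀ x, 0 ≤ b x)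
    (hp : ∃ x, 0 < b x) (hle : ∀ x t, 0 ≤ t → orb φ b x t ≤ orb φ a x t - orb φ a (h x) t + C) :
    False := by
  obtain ⟨t, ht, hg⟩ := gain hφ hmin hb h0 hp C
  obtain ⟨x₀, -, hx₀⟩ := isCompact_univ.exists_isMinOn ⟨pole, trivial⟩
    (cont_orb hφ ha t).continuousOn
  have h1 : orb φ a x₀ t ≤ orb φ a (h x₀) t := hx₀ (mem_univ _)
  linarith [hle x₀ t ht, hg x₀]

theorem no_flux_meas (hφ : IsFl φ) (h : S → S) (μ : Measure S) [IsProbabilityMeasure μ]
    [μ.IsOpenPosMeasure] (hμ : ∀ t, MeasurePreserving (φ t) μ μ) (hh : MeasurePreserving h μ μ)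
    {a b : S → ℝ} {C : ℝ} (ha : Continuous a) (hb : Continuous b) (h0 : ∀ x, 0 ≤ b x)
    (hp : ∃ x, 0 < b x) (hle : ∀ x t, 0 ≤ t → orb φ b x t ≤ orb φ a x t - orb φ a (h x) t + C) :
    False := by
  have hint : ∀ f : S → ℝ, Continuous f → Integrable f μ := fun f hf =>
    hf.integrable_of_hasCompactSupport (HasCompactSupport.of_compactSpace f)
  have hinv : ∀ (g : S → S), MeasurePreserving g μ μ → ∀ f : S → ℝ, Continuous f →
      Integrable (fun x => f (g x)) μ ∧ ∫ x, f (g x) ∂μ = ∫ x, f x ∂μ := by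
    intro g hg f hf
    refine ⟨hg.integrable_comp_of_integrable (hint f hf), ?_⟩
    rw [← integral_map hg.measurable.aemeasurable hf.aestronglyMeasurable, hg.map_eq]
  obtain ⟨x₁, hx₁⟩ := hp
  have hδ : 0 < ∫ x, orb φ b x 1 ∂μ :=
    (cont_orb hφ hb 1).integral_pos_of_hasCompactSupport_nonneg_nonzero
      (HasCompactSupport.of_compactSpace _) (fun x => orb_nonneg h0 x zero_le_one)
      (x := x₁) (intervalIntegral.integral_pos one_pos (cont_orbit hφ hb _).continuousOn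
        (fun s _ => h0 _) ⟨0, left_mem_Icc.2 zero_le_one, by rwa [hφ.zero]⟩).ne'
  have hk : ∀ k : ℕ, ∫ x, orb φ b x k ∂μ = k * ∫ x, orb φ b x 1 ∂μ := by
    intro k
    induction k with
    | zero => simp [orb]
    | succ k ih =>
      obtain ⟨i1, i2⟩ := hinv _ (hμ k) _ (cont_orb hφ hb 1)
      push_cast
      simp only [orb_add' hφ hb]
      rw [integral_add (hint _ (cont_orb hφ hb k)) i1, ih, i2]
      ring
  obtain ⟨k, hk'⟩ := exists_nat_gt (C / ∫ x, orb φ b x 1 ∂μ)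
  rw [div_lt_iff₀ hδ, ← hk] at hk'
  obtain ⟨i1, i2⟩ := hinv _ hh _ (cont_orb hφ ha k)
  have i3 := hint _ (cont_orb hφ ha k)
  have h1 := integral_mono (hint _ (cont_orb hφ hb k)) ((i3.sub i1).add (integrable_const C))
    fun x => hle x k (Nat.cast_nonneg k)
  have h2 : ∫ x, (orb φ a x k - orb φ a (h x) k + C) ∂μ = C := by
    have i4 : Integrable (fun x => orb φ a x k - orb φ a (h x) k) μ := i3.sub i1
    rw [integral_add i4 (integrable_const C), integral_sub i3 i1, i2]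
    simp
  exact absurd (h1.trans_eq h2) hk'.not_ge

theorem main {X : S → E} {m M L : ℝ} (hφ : FD φ X m M L) (ε : ℝ) (hε : 0 < ε) :
    ∃ η : ℝ, 0 < η ∧ ∀ (h : S → S) (τ : S → ℝ), Continuous τ →
      (∀ t x, h (φ t x) = φ t (h x)) → (∀ x, ‖(φ (τ x) (h x) : E) - x‖ ≤ η) →
      (∀ x y, ‖((φ (τ x) (h x) : E) - x) - ((φ (τ y) (h y) : E) - y)‖ ≤ η * ‖(x : E) - y‖) →
      ((∀ x, Dense (range fun t : ℝ => φ t x)) →
        ∃ t₀, (∀ x, h x = φ t₀ x) ∧ ∀ x, |τ x + t₀| ≤ ε) ∧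
      ∀ μ : Measure S, IsProbabilityMeasure μ → μ.IsOpenPosMeasure →
        (∀ t, MeasurePreserving (φ t) μ μ) → MeasurePreserving h μ μ →
        ∃ x θ, |θ| ≤ ε ∧ φ (τ x) (h x) = φ θ x := by
  have hm := hφ.m_pos
  obtain ⟨δ, hδ, hU⟩ := hφ.unif (m / 2) (by positivity)
  obtain ⟨d, hd, d1, d2⟩ := SigmaAux.small2 hδ hε
  have hlow : ∀ (z : S) (t : ℝ), |t| = d → m * d / 2 ≤ ‖(φ t z : E) - z‖ := by
    intro z t ht
    have h1 := hU z z z t 0 (by simp [hδ.le]) (by simp [hδ.le]) (by linarith) (by simp [hδ.le])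
    rw [hext_coe, hext_coe, hφ.zero, sub_self, sub_zero, sub_zero, norm_zero, zero_add, ht] at h1
    have h2 := norm_sub_norm_le (t • X z) ((φ t z : E) - z)
    rw [norm_sub_rev (t • X z), norm_smul, Real.norm_eq_abs, ht] at h2
    have h3 := mul_le_mul_of_nonneg_left (hφ.low z) hd.le
    linarith
  obtain ⟨η₁, hη₁, hcore⟩ := core hφ d hd
  obtain ⟨η, hη, η1, η2⟩ := SigmaAux.small2 hη₁ (show 0 < m * d / 4 by positivity)
  refine ⟨η, hη, fun h τ hτ hc near lip => ?_⟩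
  have hd' := hcore h τ hτ hc (fun x => (near x).trans η1) fun x y =>
    (lip x y).trans (mul_le_mul_of_nonneg_right η1 (norm_nonneg _))
  refine ⟨fun hmin => ?_, fun μ _ _ hμ hh => ?_⟩
  · rcases hd' with ⟨x₀, θ, hθ, hx₀⟩ | ⟨a, b, C, ha, hb, h0, hp, hle⟩
    swap
    · exact (no_flux_min hφ.toIsFl hmin h ha hb h0 hp hle).elim
    have hinv : ∀ x, h x = φ (-τ x) (φ (τ x) (h x)) := fun x => by
      rw [← hφ.add, neg_add_cancel, hφ.zero]
    have hg : Continuous fun x => φ (τ x) (h x) := by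
      refine (LipschitzWith.of_dist_le' (K := η + 1) fun x y => ?_).continuous
      rw [Subtype.dist_eq, Subtype.dist_eq, dist_eq_norm, dist_eq_norm]
      have e : (φ (τ x) (h x) : E) - φ (τ y) (h y) =
          (((φ (τ x) (h x) : E) - x) - ((φ (τ y) (h y) : E) - y)) + ((x : E) - y) := by abel
      rw [e]
      refine (norm_add_le _ _).trans ?_
      linarith [lip x y]
    have hhc : Continuous h := by
      rw [funext hinv]
      exact hφ.cont.comp (hτ.neg.prodMk hg)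
    have hall : ∀ x, h x = φ (-τ x₀ + θ) x := by
      refine fun x => congrFun (Continuous.ext_on (hmin x₀) hhc
        (hφ.cont.comp (continuous_const.prodMk continuous_id)) ?_) x
      rintro _ ⟨t, rfl⟩
      show h (φ t x₀) = φ (-τ x₀ + θ) (φ t x₀)
      rw [hc, hinv x₀, hx₀, ← hφ.add, ← hφ.add, ← hφ.add]
      congr 1
      ring
    refine ⟨-τ x₀ + θ, hall, fun x => ?_⟩
    by_contra hx
    push Not at hx
    have : PreconnectedSpace S := Subtype.preconnectedSpace (isPreconnected_sphere (by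
      rw [← Module.finrank_eq_rank]
      norm_num) 0 1)
    have hf : Continuous fun z => |τ z + (-τ x₀ + θ)| := (hτ.add continuous_const).abs
    obtain ⟨z, hz⟩ := intermediate_value_univ x₀ x hf (show d ∈ Icc _ _ from
      ⟨by rwa [add_neg_cancel_left], by linarith⟩)
    have h1 := hlow z _ hz
    rw [hφ.add, ← hall] at h1
    have h2 : 0 < m * d := by positivity
    linarith [near z]
  · rcases hd' with ⟨x₀, θ, hθ, hx₀⟩ | ⟨a, b, C, ha, hb, h0, hp, hle⟩
    · exact ⟨x₀, θ, hθ.trans d2, hx₀⟩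
    · exact (no_flux_meas hφ.toIsFl h μ hμ hh ha hb h0 hp hle).elim

end Pool.Agent.Lib.MP_399f8e_an.Dc
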