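import Pool.Agent.Lib.MP_399f8e_an.Dc.Defs

open Set Filter Topology Metric
open scoped RealInnerProductSpace
open Pool.Agent.Lib.MP_399f8e_an.Rg Pool.Agent.Lib.MP_399f8e_an.Rg.CrossAux

noncomputable section

namespace Pool.Agent.Lib.MP_399f8e_an.Dc

/-- differentiation under the integral sign -/
theorem par {H : Type} [NormedAddCommGroup H] [NormedSpace ℝ H] [ProperSpace H]
    (F : ℝ → H → ℝ) (F' : ℝ → H → H →L[ℝ] ℝ) (hF : Continuous fun q : ℝ × H => F q.1 q.2)
    (hF' : Continuous fun q : ℝ × H => F' q.1 q.2) (hd : ∀ s p, HasFDerivAt (F s) (F' s p) p)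
    (a b : ℝ) (p₀ : H) :
    HasFDerivAt (fun p => ∫ s in a..b, F s p) (∫ s in a..b, F' s p₀) p₀ := by
  have hK : IsCompact (uIcc a b ×ˢ closedBall p₀ 1) :=
    isCompact_uIcc.prod (isCompact_closedBall p₀ 1)
  obtain ⟨C, hC⟩ := hK.exists_bound_of_continuousOn hF'.continuousOn
  have hc : ∀ p, Continuous fun s => F s p := fun p =>
    hF.comp (continuous_id.prodMk continuous_const)
  have hc' : Continuous fun s => F' s p₀ := hF'.comp (continuous_id.prodMk continuous_const)
  refine intervalIntegral.hasFDerivAt_integral_of_dominated_of_fderiv_le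
    (F := fun p s => F s p) (F' := fun p s => F' s p) (bound := fun _ => C)
    (closedBall_mem_nhds p₀ one_pos)
    (Eventually.of_forall fun p => (hc p).aestronglyMeasurable)
    ((hc p₀).intervalIntegrable a b) hc'.aestronglyMeasurable
    (Eventually.of_forall fun t ht x hx => hC (t, x) ⟨uIoc_subset_uIcc ht, hx⟩)
    intervalIntegrable_const
    (Eventually.of_forall fun t _ x _ => hd t x)

end Pool.Agent.Lib.MP_399f8e_an.Dc
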