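import Pool.Agent.Lib.MP_399f8e_an.Dc.Par

open Set Filter Topology Metric
open scoped RealInnerProductSpace
open Pool.Agent.Lib.MP_399f8e_an.Rg Pool.Agent.Lib.MP_399f8e_an.Rg.CrossAux

noncomputable section

namespace Pool.Agent.Lib.MP_399f8e_an.Dc

namespace SegAux

/-- the difference of the end points -/
def M : E × E →L[ℝ] E := ContinuousLinearMap.snd ℝ E E - ContinuousLinearMap.fst ℝ E E

/-- the point of the segment with parameter `r` -/
def L (r : ℝ) : E × E →L[ℝ] E := ContinuousLinearMap.fst ℝ E E + r • M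

theorem M_apply (q : E × E) : M q = q.2 - q.1 := rfl

theorem L_apply (r : ℝ) (q : E × E) : L r q = q.1 + r • (q.2 - q.1) := rfl

theorem cont_L : Continuous L := by
  unfold L
  fun_prop

/-- the derivative of the integrand in the end points -/
def G (A : E → E) (r : ℝ) (q : E × E) : E × E →L[ℝ] ℝ :=
  (innerSL ℝ (M q)).comp ((fderiv ℝ A (L r q)).comp (L r)) + (innerSL ℝ (A (L r q))).comp M

theorem G_apply (A : E → E) (r : ℝ) (q z : E × E) :
    G A r q z = ⟪fderiv ℝ A (L r q) (L r z), M q⟫ + ⟪A (L r q), M z⟫ := by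
  simp only [G, add_apply, ContinuousLinearMap.comp_apply, innerSL_apply_apply]
  rw [real_inner_comm]

theorem cont_pt : Continuous fun x : ℝ × (E × E) => L x.1 x.2 := by
  simp only [L_apply]
  fun_prop

theorem cont_G {A : E → E} (hA : ContDiff ℝ 1 A) :
    Continuous fun x : ℝ × (E × E) => G A x.1 x.2 := by
  have h1 : Continuous (fderiv ℝ A) := hA.continuous_fderiv one_ne_zero
  have h2 : Continuous fun x : ℝ × (E × E) => innerSL ℝ (M x.2) :=
    (innerSL ℝ (E := E)).continuous.comp (M.continuous.comp continuous_snd)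
  have h3 : Continuous fun x : ℝ × (E × E) => innerSL ℝ (A (L x.1 x.2)) :=
    (innerSL ℝ (E := E)).continuous.comp (hA.continuous.comp cont_pt)
  exact (h2.clm_comp ((h1.comp cont_pt).clm_comp (cont_L.comp continuous_fst))).add
    (h3.clm_comp continuous_const)

theorem has_G {A : E → E} (hA : ContDiff ℝ 1 A) (r : ℝ) (q : E × E) :
    HasFDerivAt (fun q : E × E => ⟪A (L r q), M q⟫) (G A r q) q := by
  have h1 : HasFDerivAt (fun q : E × E => A (L r q)) ((fderiv ℝ A (L r q)).comp (L r)) q :=
    ((hA.differentiable one_ne_zero) (L r q)).hasFDerivAt.comp q (L r).hasFDerivAt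
  refine (h1.inner ℝ M.hasFDerivAt).congr_fderiv ?_
  refine ContinuousLinearMap.ext fun z => ?_
  rw [G_apply]
  simp only [ContinuousLinearMap.comp_apply, ContinuousLinearMap.prod_apply, fderivInnerCLM_apply]
  ring

theorem has_line {A : E → E} (hA : ContDiff ℝ 1 A) (a v a' v' : E) (r : ℝ) :
    HasDerivAt (fun r : ℝ => ⟪A (a + r • v), a' + r • v'⟫)
      (⟪A (a + r • v), v'⟫ + ⟪fderiv ℝ A (a + r • v) v, a' + r • v'⟫) r := by
  have l : ∀ c w : E, HasDerivAt (fun r : ℝ => c + r • w) w r := fun c w => by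
    simpa using ((hasDerivAt_id r).smul_const w).const_add c
  have h1 : HasDerivAt (fun r : ℝ => A (a + r • v)) (fderiv ℝ A (a + r • v) v) r :=
    ((hA.differentiable one_ne_zero) (a + r • v)).hasFDerivAt.comp_hasDerivAt r (l a v)
  exact h1.inner ℝ (l a' v')

end SegAux

open SegAux

theorem continuous_seg {A : E → E} (hA : Continuous A) :
    Continuous fun q : E × E => seg A q.1 q.2 := by
  unfold seg
  refine intervalIntegral.continuous_parametric_intervalIntegral_of_continuous'
    (f := fun (q : E × E) (r : ℝ) => ⟪A (q.1 + r • (q.2 - q.1)), q.2 - q.1⟫) ?_ 0 1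
  unfold Function.uncurry
  fun_prop

/-- the derivative of the segment integral in the end points -/
theorem seg_deriv {A : E → E} (hA : ContDiff ℝ 1 A) (a b : E) :
    ∃ D : E × E →L[ℝ] ℝ, HasFDerivAt (fun q : E × E => seg A q.1 q.2) D (a, b) ∧
      ∀ a' b' : E, D (a', b') = ⟪A b, b'⟫ - ⟪A a, a'⟫ +
        ∫ r in (0 : ℝ)..1, dA A (a + r • (b - a)) (a' + r • (b' - a')) (b - a) := by
  have hc := hA.continuous
  have h1 : Continuous (fderiv ℝ A) := hA.continuous_fderiv one_ne_zero
  have hF : Continuous fun x : ℝ × (E × E) => ⟪A (L x.1 x.2), M x.2⟫ :=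
    (hc.comp cont_pt).inner (M.continuous.comp continuous_snd)
  refine ⟨_, par (fun r q => ⟪A (L r q), M q⟫) (G A) hF (cont_G hA) (has_G hA) 0 1 (a, b), ?_⟩
  intro a' b'
  have hG : Continuous fun r : ℝ => G A r (a, b) :=
    Continuous.comp (g := fun x : ℝ × (E × E) => G A x.1 x.2) (f := fun r : ℝ => (r, (a, b)))
      (cont_G hA) (continuous_id.prodMk continuous_const)
  rw [ContinuousLinearMap.intervalIntegral_apply (hG.intervalIntegrable 0 1)]
  have hp : Continuous fun r : ℝ => a + r • (b - a) := by fun_prop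
  have hu : Continuous fun r : ℝ => a' + r • (b' - a') := by fun_prop
  have c1 : Continuous fun r : ℝ => ⟪A (a + r • (b - a)), b' - a'⟫ +
      ⟪fderiv ℝ A (a + r • (b - a)) (b - a), a' + r • (b' - a')⟫ :=
    ((hc.comp hp).inner continuous_const).add
      (((h1.comp hp).clm_apply continuous_const).inner hu)
  have c2 : Continuous fun r : ℝ => dA A (a + r • (b - a)) (a' + r • (b' - a')) (b - a) :=
    (((h1.comp hp).clm_apply hu).inner continuous_const).sub
      (((h1.comp hp).clm_apply continuous_const).inner hu)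
  have ftc := intervalIntegral.integral_eq_sub_of_hasDerivAt
    (fun r _ => has_line hA a (b - a) a' (b' - a') r) (c1.intervalIntegrable 0 1)
  simp only [one_smul, zero_smul, add_zero, add_sub_cancel] at ftc
  rw [← ftc, ← intervalIntegral.integral_add (c1.intervalIntegrable 0 1)
    (c2.intervalIntegrable 0 1)]
  refine intervalIntegral.integral_congr fun r _ => ?_
  simp only [G_apply, L_apply, M_apply, dA]
  ring

end Pool.Agent.Lib.MP_399f8e_an.Dc
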